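import Pool.Agent.Q318.RG.Box

set_option autoImplicit false

/-! # Diophantine approximation with numerators and denominators in record gaps -/

namespace Pool.Agent.Q318.RG

open Finset Filter
open Pool.Agent.W147.PS (ff ff_compare ev_pow)
open Pool.Agent.Q46.MH (Iso)

lemma den_large (α : ℝ) (hα : Irrational α) (n : ℕ) :
    ∃ a : ℚ, n ≤ a.den ∧ |α - a| < 1 / (a.den : ℝ) ^ 2 := by
  by_contra hcon
  push Not at hcon
  have hinf := Real.infinite_rat_abs_sub_lt_one_div_den_sq_of_irrational hα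
  apply hinf
  refine Set.Finite.subset (Set.Finite.image (fun z : ℤ × ℕ => (z.1 : ℚ) / z.2)
    ((Set.finite_Icc (-⌈(|α| + 1) * n⌉) ⌈(|α| + 1) * n⌉).prod (Set.finite_Iic n))) ?_
  intro a ha
  have hd : a.den < n := by
    by_contra h
    push Not at h
    exact absurd ha (not_lt.2 (hcon a h))
  refine ⟨(a.num, a.den), ⟨?_, hd.le⟩, Rat.num_div_den a⟩
  have hdp : (1 : ℝ) ≤ a.den := by exact_mod_cast a.den_pos
  have ha1 : |α - a| < 1 := by
    refine lt_of_lt_of_le (show |α - a| < 1 / (a.den : ℝ) ^ 2 from ha) ?_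
    rw [div_le_one (by positivity)]
    exact one_le_pow₀ hdp
  have h2 : |(a : ℝ)| ≤ |α| + 1 := by
    have h3 : (a : ℝ) = α - (α - a) := by ring
    rw [h3]
    refine (abs_sub _ _).trans ?_
    linarith
  have h3 : |(a.num : ℝ)| ≤ (|α| + 1) * n := by
    have h4 : (a.num : ℝ) = a * a.den := by
      have h5 : (a.num : ℚ) = a * a.den := (Rat.mul_den_eq_num a).symm
      exact_mod_cast h5
    rw [h4, abs_mul, Nat.abs_cast]
    exact mul_le_mul h2 (by exact_mod_cast hd.le) (by positivity) (by positivity)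
  have h4 := abs_le.1 (h3.trans (Int.le_ceil _))
  simp only [Set.mem_Icc]
  constructor
  · exact_mod_cast h4.1
  · exact_mod_cast h4.2

/-- a good approximation and its companion -/
lemma companion (α : ℝ) (hα : Irrational α) (T : ℕ) : ∃ (q : ℕ) (a q' a' : ℤ), T ≤ q ∧ 0 < q ∧
    0 ≤ q' ∧ q' ≤ q ∧ a * q' - q * a' = 1 ∧ |q * α - a| ≤ 1 / q ∧ |q' * α - a'| ≤ 2 / q := by
  obtain ⟨a, ha, hd⟩ := den_large α hα T
  have hq0 : 0 < a.den := a.den_pos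
  have hq' : (0 : ℝ) < a.den := by exact_mod_cast hq0
  have hco : IsCoprime a.num (a.den : ℤ) := by
    rw [Int.isCoprime_iff_gcd_eq_one]
    exact a.reduced
  obtain ⟨u, v, huv⟩ := hco
  set w : ℤ := u % a.den with hw
  have hw0 : 0 ≤ w := Int.emod_nonneg _ (by exact_mod_cast hq0.ne')
  have hw1 : w < a.den := Int.emod_lt_of_pos _ (by exact_mod_cast hq0)
  have hdiv : (a.den : ℤ) ∣ a.num * w - 1 := by
    have h1 : u = a.den * (u / a.den) + w := by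
      rw [hw]
      exact (Int.mul_ediv_add_emod u a.den).symm
    refine ⟨-v - a.num * (u / a.den), ?_⟩
    have h2 : u * a.num = 1 - v * a.den := by linarith
    have h3 : w = u - a.den * (u / a.den) := by linarith
    calc a.num * w - 1 = a.num * (u - a.den * (u / a.den)) - 1 := by rw [h3]
      _ = u * a.num - a.num * a.den * (u / a.den) - 1 := by ring
      _ = _ := by rw [h2]; ring
  obtain ⟨a', ha'⟩ := hdiv
  have hα1 : |(a.den : ℝ) * α - a.num| ≤ 1 / a.den := by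
    have h4 : (a.num : ℝ) = a * a.den := by
      have h5 : (a.num : ℚ) = a * a.den := (Rat.mul_den_eq_num a).symm
      exact_mod_cast h5
    have h5 : (a.den : ℝ) * α - a.num = a.den * (α - a) := by rw [h4]; ring
    rw [h5, abs_mul, abs_of_pos hq']
    calc (a.den : ℝ) * |α - a| ≤ a.den * (1 / (a.den : ℝ) ^ 2) :=
          mul_le_mul_of_nonneg_left hd.le hq'.le
      _ = 1 / a.den := by field_simp
  refine ⟨a.den, a.num, w, a', ha, hq0, hw0, hw1.le, by linarith, hα1, ?_⟩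
  have h6 : (w : ℝ) * α - a' = (w / a.den) * (a.den * α - a.num) + 1 / a.den := by
    have h7 : (a.num : ℝ) * w - 1 = a.den * a' := by exact_mod_cast ha'
    field_simp
    linarith
  rw [h6]
  have h8 : |(w : ℝ) / a.den| ≤ 1 := by
    rw [abs_of_nonneg (div_nonneg (by exact_mod_cast hw0) hq'.le), div_le_one hq']
    exact_mod_cast hw1.le
  calc |(w / a.den) * (a.den * α - a.num) + 1 / (a.den : ℝ)|
      ≤ |(w / a.den) * (a.den * α - a.num)| + |1 / (a.den : ℝ)| := abs_add_le _ _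
    _ ≤ 1 * (1 / a.den) + 1 / a.den := by
        rw [abs_mul, abs_of_pos (show (0 : ℝ) < 1 / a.den by positivity)]
        gcongr
    _ = 2 / a.den := by ring

/-- from the integers to the pair -/
lemma finish (ε : ℝ) (h0 : 0 < ε) (h1 : ε ≤ 1) (κ : ℝ) (hκ : 0 < κ) (M R α β : ℝ) (hM1 : 1 ≤ M)
    (hR1 : 1 ≤ R) (hRM : 8 * R ≤ M) (hR2 : R ^ 2 = M ^ (ε / 2))
    (h49 : 49 * M ^ (ε / 2) ≤ M ^ ε)
    (hff : ∀ v : ℝ, M ≤ v → v ≤ M ^ 2 → 1 / 2 / 32 * ff v ≤ ff M)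
    (v0 v1 : ℤ) (k0 : 2 * R * M ≤ (v0 : ℝ) ∧ (v0 : ℝ) ≤ 8 * R * M)
    (k1 : |(v0 : ℝ) * α - v1 - β| ≤ 6 * R / M) (k2 : R ≤ (v1 : ℝ))
    (hI : Iso (κ * ff M) ![v0, v1]) :
    ∃ p q : ℕ, M ≤ q ∧ |q * α - p - β| < (q : ℝ) ^ (-1 + ε) ∧
      Iso (κ / 64 * ff q) ![(q : ℤ), (p : ℤ)] := by
  have hM0 : 0 < M := by linarith
  have p0 : 0 ≤ v0 := by
    have : (0 : ℝ) ≤ v0 := le_trans (by positivity) k0.1
    exact_mod_cast this
  have p1 : 0 ≤ v1 := by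
    have : (0 : ℝ) ≤ v1 := le_trans (by linarith) k2
    exact_mod_cast this
  have c0 : ((v0.toNat : ℕ) : ℤ) = v0 := Int.toNat_of_nonneg p0
  have c1 : ((v1.toNat : ℕ) : ℤ) = v1 := Int.toNat_of_nonneg p1
  have d0 : ((v0.toNat : ℕ) : ℝ) = v0 := by exact_mod_cast congrArg (Int.cast : ℤ → ℝ) c0
  have d1 : ((v1.toNat : ℕ) : ℝ) = v1 := by exact_mod_cast congrArg (Int.cast : ℤ → ℝ) c1
  have hMv : M ≤ v0 := by
    refine le_trans ?_ k0.1
    nlinarith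
  have hv0pos : (0 : ℝ) < v0 := lt_of_lt_of_le hM0 hMv
  have hvM2 : (v0 : ℝ) ≤ M ^ 2 := by
    refine k0.2.trans ?_
    nlinarith
  refine ⟨v1.toNat, v0.toNat, by rw [d0]; exact hMv, ?_, ?_⟩
  · rw [d0, d1]
    refine lt_of_le_of_lt k1 ?_
    have g1 : (v0 : ℝ) ^ (1 - ε) ≤ 8 * R * M ^ (1 - ε) := by
      calc (v0 : ℝ) ^ (1 - ε) ≤ (8 * R * M) ^ (1 - ε) :=
            Real.rpow_le_rpow hv0pos.le k0.2 (by linarith)
        _ = (8 * R) ^ (1 - ε) * M ^ (1 - ε) := Real.mul_rpow (by linarith) hM0.le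
        _ ≤ (8 * R) ^ (1 : ℝ) * M ^ (1 - ε) := by
            apply mul_le_mul_of_nonneg_right _ (by positivity)
            exact Real.rpow_le_rpow_of_exponent_le (by linarith) (by linarith)
        _ = 8 * R * M ^ (1 - ε) := by rw [Real.rpow_one]
    have g2 : (v0 : ℝ) ^ (-1 + ε) = 1 / (v0 : ℝ) ^ (1 - ε) := by
      rw [show (-1 + ε) = -(1 - ε) by ring, Real.rpow_neg hv0pos.le, one_div]
    have g3 : (0 : ℝ) < (v0 : ℝ) ^ (1 - ε) := by positivity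
    rw [g2, div_lt_div_iff₀ hM0 g3, one_mul]
    have g4 : M ^ ε * M ^ (1 - ε) = M := by
      rw [← Real.rpow_add hM0]
      simp
    calc 6 * R * (v0 : ℝ) ^ (1 - ε) ≤ 6 * R * (8 * R * M ^ (1 - ε)) :=
          mul_le_mul_of_nonneg_left g1 (by linarith)
      _ = 48 * M ^ (ε / 2) * M ^ (1 - ε) := by rw [← hR2]; ring
      _ < 49 * M ^ (ε / 2) * M ^ (1 - ε) := by
          apply mul_lt_mul_of_pos_right _ (by positivity)
          have : (0 : ℝ) < M ^ (ε / 2) := by positivity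
          linarith
      _ ≤ M ^ ε * M ^ (1 - ε) := mul_le_mul_of_nonneg_right h49 (by positivity)
      _ = M := g4
  · rw [d0]
    have g5 := hff v0 hMv hvM2
    have g6 : κ / 64 * ff v0 ≤ κ * ff M := by
      have g7 := mul_le_mul_of_nonneg_left g5 hκ.le
      calc κ / 64 * ff v0 = κ * (1 / 2 / 32 * ff v0) := by ring
        _ ≤ _ := g7
    intro j r hr
    have g8 := hI j r hr
    refine lt_of_le_of_lt g6 ?_
    fin_cases j
    · simp only [Fin.zero_eta, Matrix.cons_val_zero, c0]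
      exact g8
    · simp only [Fin.mk_one, Matrix.cons_val_one, Matrix.cons_val_fin_one, c1]
      exact g8

open Classical in
/-- one large approximation gives a pair -/
lemma approx_at (ε : ℝ) (h0 : 0 < ε) (h1 : ε ≤ 1) : ∃ κ : ℝ, 0 < κ ∧
    ∀ᶠ M : ℝ in atTop, ∀ (q₀ : ℕ) (a q' a' : ℤ) (α β : ℝ), (q₀ : ℝ) = M → 0 ≤ q' → q' ≤ q₀ →
      a * q' - q₀ * a' = 1 → |q₀ * α - a| ≤ 1 / q₀ → |q' * α - a'| ≤ 2 / q₀ →
      |β| + 7 ≤ 2 * M * α →
      ∃ p q : ℕ, M ≤ q ∧ |q * α - p - β| < (q : ℝ) ^ (-1 + ε) ∧ Iso (κ * ff q) ![(q : ℤ), (p : ℤ)] := by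
  obtain ⟨κ, hκ, hev⟩ := unimod 2 (by norm_num) (ε / 4) (by linarith) (by linarith)
  obtain ⟨M₁, hM₁⟩ := eventually_atTop.1 (ff_compare (1 / 2) (by norm_num) (by norm_num))
  refine ⟨κ / 64, by positivity, ?_⟩
  filter_upwards [hev, eventually_ge_atTop (1 : ℝ), eventually_ge_atTop M₁,
    ev_pow (ε / 2) ε 49 (by linarith), ev_pow (1 / 4) 1 8 (by norm_num)] with M hM hM1 hMM h49 h8
  intro q₀ a q' a' α β hq₀ hq'0 hq'1 hdet hδ hδ' hβ
  have hM0 : 0 < M := by linarith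
  rw [Real.rpow_one] at h8
  set R : ℝ := M ^ (ε / 4) with hR
  have hR1 : 1 ≤ R := Real.one_le_rpow hM1 (by linarith)
  have hRM : 8 * R ≤ M := by
    refine le_trans ?_ h8
    have : R ≤ M ^ (1 / 4 : ℝ) := Real.rpow_le_rpow_of_exponent_le hM1 (by linarith)
    linarith
  have hR2 : R ^ 2 = M ^ (ε / 2) := by
    rw [hR, ← Real.rpow_natCast, ← Real.rpow_mul hM0.le]
    congr 1
    push_cast
    ring
  set N : ℕ := ⌈R⌉₊ with hN
  have hN1 : R ≤ N := Nat.le_ceil R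
  have hN2 : (N : ℝ) ≤ 2 * R := by
    have := Nat.ceil_lt_add_one (show 0 ≤ R by linarith)
    rw [← hN] at this
    linarith
  have hN0 : (1 : ℝ) ≤ N := hR1.trans hN1
  rw [hq₀] at hδ hδ'
  set δ : ℝ := M * α - a with hδd
  set δ' : ℝ := q' * α - a' with hδd'
  have hq'R : (q' : ℝ) ≤ M := by rw [← hq₀]; exact_mod_cast hq'1
  have hq'R0 : (0 : ℝ) ≤ q' := by exact_mod_cast hq'0
  have hdetR : (a : ℝ) * q' - M * a' = 1 := by rw [← hq₀]; exact_mod_cast hdet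
  have hD : M * δ' - q' * δ = 1 := by
    rw [hδd, hδd']
    linarith
  set X : ℝ := 4 * R * M * δ' - q' * β with hX
  set Y : ℝ := M * β - 4 * R * M * δ with hY
  have hXY1 : X * M + Y * q' = 4 * R * M := by
    have : X * M + Y * q' = 4 * R * M * (M * δ' - q' * δ) := by rw [hX, hY]; ring
    rw [this, hD, mul_one]
  have hXY2 : X * δ + Y * δ' = β := by
    have : X * δ + Y * δ' = β * (M * δ' - q' * δ) := by rw [hX, hY]; ring
    rw [this, hD, mul_one]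
  set A : Matrix (Fin 2) (Fin 2) ℤ := !![(q₀ : ℤ), q'; a, a'] with hA
  set b : Fin 2 → ℤ := ![(q₀ : ℤ) * ⌊X⌋ + q' * ⌊Y⌋, a * ⌊X⌋ + a' * ⌊Y⌋] with hb
  have hdetA : IsUnit A.det := by
    rw [hA, Matrix.det_fin_two_of]
    have : (q₀ : ℤ) * a' - q' * a = -1 := by linarith
    rw [this]
    exact isUnit_neg_one
  -- the coordinates
  have hv0 : ∀ x : Fin 2 → ℕ, ((b 0 + ∑ j, A 0 j * (x j : ℤ) : ℤ) : ℝ) =
      4 * R * M + M * ((⌊X⌋ : ℝ) + x 0 - X) + q' * ((⌊Y⌋ : ℝ) + x 1 - Y) := by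
    intro x
    rw [Fin.sum_univ_two]
    simp only [hA, hb, Matrix.cons_val_zero, Matrix.of_apply, Matrix.cons_val', Matrix.cons_val_one,
      Matrix.cons_val_fin_one]
    push_cast
    rw [hq₀]
    linarith
  have hv1 : ∀ x : Fin 2 → ℕ, ((b 0 + ∑ j, A 0 j * (x j : ℤ) : ℤ) : ℝ) * α -
      ((b 1 + ∑ j, A 1 j * (x j : ℤ) : ℤ) : ℝ) - β =
      ((⌊X⌋ : ℝ) + x 0 - X) * δ + ((⌊Y⌋ : ℝ) + x 1 - Y) * δ' := by
    intro x
    rw [Fin.sum_univ_two, Fin.sum_univ_two]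
    simp only [hA, hb, Matrix.cons_val_zero, Matrix.of_apply, Matrix.cons_val', Matrix.cons_val_one,
      Matrix.cons_val_fin_one]
    push_cast
    rw [hq₀]
    have h3 : ((⌊X⌋ : ℝ) + x 0 - X) * δ + ((⌊Y⌋ : ℝ) + x 1 - Y) * δ' =
        ((⌊X⌋ : ℝ) + x 0) * δ + ((⌊Y⌋ : ℝ) + x 1) * δ' - (X * δ + Y * δ') := by ring
    rw [h3, hXY2, hδd, hδd']
    ring
  have hu : ∀ (Z : ℝ) (n : ℕ), n < N → -1 ≤ (⌊Z⌋ : ℝ) + n - Z ∧ (⌊Z⌋ : ℝ) + n - Z ≤ N := by
    intro Z n hn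
    have h3 := Int.floor_le Z
    have h4 := Int.lt_floor_add_one Z
    have h5 : (n : ℝ) ≤ N := by exact_mod_cast hn.le
    have h6 : (0 : ℝ) ≤ n := Nat.cast_nonneg _
    constructor <;> linarith
  have hb0 : ∀ x : Fin 2 → ℕ, (∀ j, x j < N) →
      2 * R * M ≤ ((b 0 + ∑ j, A 0 j * (x j : ℤ) : ℤ) : ℝ) ∧
      ((b 0 + ∑ j, A 0 j * (x j : ℤ) : ℤ) : ℝ) ≤ 8 * R * M := by
    intro x hx
    rw [hv0 x]
    have h3 := hu X (x 0) (hx 0)
    have h4 := hu Y (x 1) (hx 1)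
    have h5 : -M ≤ M * ((⌊X⌋ : ℝ) + x 0 - X) ∧ M * ((⌊X⌋ : ℝ) + x 0 - X) ≤ M * N := by
      constructor <;> nlinarith
    have h6 : -M ≤ q' * ((⌊Y⌋ : ℝ) + x 1 - Y) ∧ q' * ((⌊Y⌋ : ℝ) + x 1 - Y) ≤ M * N := by
      constructor <;> nlinarith
    have h7 : M * N ≤ M * (2 * R) := mul_le_mul_of_nonneg_left hN2 hM0.le
    have h8 : M * 1 ≤ M * R := mul_le_mul_of_nonneg_left hR1 hM0.le
    constructor <;> nlinarith [h5.1, h5.2, h6.1, h6.2]
  have hb1 : ∀ x : Fin 2 → ℕ, (∀ j, x j < N) →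
      |((b 0 + ∑ j, A 0 j * (x j : ℤ) : ℤ) : ℝ) * α -
        ((b 1 + ∑ j, A 1 j * (x j : ℤ) : ℤ) : ℝ) - β| ≤ 6 * R / M := by
    intro x hx
    rw [hv1 x]
    have h3 := hu X (x 0) (hx 0)
    have h4 := hu Y (x 1) (hx 1)
    have h5 : |(⌊X⌋ : ℝ) + x 0 - X| ≤ N := abs_le.2 ⟨by linarith, h3.2⟩
    have h6 : |(⌊Y⌋ : ℝ) + x 1 - Y| ≤ N := abs_le.2 ⟨by linarith, h4.2⟩
    calc |((⌊X⌋ : ℝ) + x 0 - X) * δ + ((⌊Y⌋ : ℝ) + x 1 - Y) * δ'|
        ≤ |(⌊X⌋ : ℝ) + x 0 - X| * |δ| + |(⌊Y⌋ : ℝ) + x 1 - Y| * |δ'| := by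
          rw [← abs_mul, ← abs_mul]
          exact abs_add_le _ _
      _ ≤ N * (1 / M) + N * (2 / M) := by gcongr
      _ = N * (3 / M) := by ring
      _ ≤ (2 * R) * (3 / M) := mul_le_mul_of_nonneg_right hN2 (by positivity)
      _ = 6 * R / M := by ring
  have hb2 : ∀ x : Fin 2 → ℕ, (∀ j, x j < N) → R ≤ ((b 1 + ∑ j, A 1 j * (x j : ℤ) : ℤ) : ℝ) := by
    intro x hx
    have h3 := (hb0 x hx).1
    have h4 := (abs_le.1 (hb1 x hx)).2
    have hα : 0 < α := by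
      by_contra h
      push Not at h
      have : 2 * M * α ≤ 0 := by nlinarith
      have := abs_nonneg β
      linarith
    have h5 : 2 * R * M * α ≤ ((b 0 + ∑ j, A 0 j * (x j : ℤ) : ℤ) : ℝ) * α :=
      mul_le_mul_of_nonneg_right h3 hα.le
    have h6 : 6 * R / M ≤ 6 * R := div_le_self (by linarith) hM1
    have h7 : β ≤ R * |β| := by
      have := le_abs_self β
      have := abs_nonneg β
      nlinarith
    have h8 : R * (|β| + 7) ≤ R * (2 * M * α) := mul_le_mul_of_nonneg_left hβ (by linarith)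
    nlinarith
  have hmain := hM A hdetA b (fun _ => N) (fun _ => hN1) (by
    intro x hx i
    have hRle : R ≤ 2 * R * M := by nlinarith
    fin_cases i
    · exact hRle.trans (hb0 x hx).1
    · exact hb2 x hx)
  have hpos : (0 : ℝ) < (∏ _j : Fin 2, (N : ℝ)) * M ^ (-(ε / 4)) := by positivity
  have hne := lt_of_lt_of_le hpos hmain
  have hne2 : 0 < ((Fintype.piFinset fun _ : Fin 2 => range N).filter
      (fun x : Fin 2 → ℕ => Iso (κ * ff M) (fun i => b i + ∑ j, A i j * (x j : ℤ)))).card := by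
    exact_mod_cast hne
  obtain ⟨x, hx⟩ := card_pos.1 hne2
  rw [mem_filter, Fintype.mem_piFinset] at hx
  have hx1 : ∀ j, x j < N := fun j => mem_range.1 (hx.1 j)
  refine finish ε h0 h1 κ hκ M R α β hM1 hR1 hRM hR2 h49 ?_ _ _ (hb0 x hx1) (hb1 x hx1) (hb2 x hx1) ?_
  · intro v hv1 hv2
    exact ((hM₁ v (hMM.trans hv1)).2 M (by
      rw [← Real.sqrt_eq_rpow]
      rw [Real.sqrt_le_left hM0.le]
      exact hv2) (by nlinarith)).1
  · intro j r hr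
    have g8 := hx.2 j r hr
    fin_cases j
    · exact g8
    · exact g8

/-- **Diophantine approximation inside record gaps.** -/
theorem approx (ε : ℝ) (h0 : 0 < ε) (h1 : ε ≤ 1) : ∃ κ : ℝ, 0 < κ ∧
    ∀ α : ℝ, Irrational α → 0 < α → ∀ β T : ℝ,
      ∃ p q : ℕ, T ≤ q ∧ |q * α - p - β| < (q : ℝ) ^ (-1 + ε) ∧
        Iso (κ * ff q) ![(q : ℤ), (p : ℤ)] := by
  obtain ⟨κ, hκ, hev⟩ := approx_at ε h0 h1
  refine ⟨κ, hκ, fun α hα hα0 β T => ?_⟩
  obtain ⟨M₀, hM₀⟩ := eventually_atTop.1 hev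
  obtain ⟨q₀, a, q', a', hT, hq0, h2, h3, h4, h5, h6⟩ :=
    companion α hα (⌈max (max M₀ T) ((|β| + 7) / (2 * α))⌉₊)
  have h7 : max (max M₀ T) ((|β| + 7) / (2 * α)) ≤ (q₀ : ℝ) :=
    (Nat.le_ceil _).trans (by exact_mod_cast hT)
  have h8 : M₀ ≤ (q₀ : ℝ) := ((le_max_left _ _).trans (le_max_left _ _)).trans h7
  have h9 : T ≤ (q₀ : ℝ) := ((le_max_right _ _).trans (le_max_left _ _)).trans h7
  have h10 : (|β| + 7) / (2 * α) ≤ (q₀ : ℝ) := (le_max_right _ _).trans h7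
  obtain ⟨p, q, k1, k2, k3⟩ := hM₀ q₀ h8 q₀ a q' a' α β rfl h2 h3 h4 h5 h6 (by
    rw [div_le_iff₀ (by linarith)] at h10
    linarith)
  exact ⟨p, q, h9.trans k1, k2, k3⟩

end Pool.Agent.Q318.RG
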