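import Pool.Agent.Q46.MH.Crit

set_option autoImplicit false

/-! # Maps which are balanced modulo all small moduli -/

namespace Pool.Agent.Q318.RG

open Finset Filter
open Pool.Agent.H469R2.NK (e norm_e e_add)
open Pool.Agent.W147.PS (ff ff_compare ev_pow)
open Pool.Agent.TH915.PW (e_int sum_char)
open Pool.Agent.Q46.MH
open Pool.Agent.Y961.JR (e_sum)

/-- `F` is well defined modulo `q`, and all values modulo `q` are taken equally often -/
def Balanced {n r : ℕ} (q : ℕ) (F : (Fin n → ℤ) → Fin r → ℤ) : Prop :=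
  ∃ f : (Fin n → ZMod q) → Fin r → ZMod q,
    (∀ x : Fin n → ℤ, (fun i => ((F x i : ℤ) : ZMod q)) = f (fun j => ((x j : ℤ) : ZMod q))) ∧
    ∀ ρ ρ' : Fin r → ZMod q, Nat.card {y // f y = ρ} = Nat.card {y // f y = ρ'}

lemma e_nat_period (q : ℕ) (hq : 0 < q) (h : ℕ) (a b : ℤ) (hab : (a : ZMod q) = (b : ZMod q)) :
    e ((h : ℝ) * (a / q)) = e ((h : ℝ) * (b / q)) := by
  have h1 : ((q : ℕ) : ℤ) ∣ a - b := by
    rw [← ZMod.intCast_zmod_eq_zero_iff_dvd]
    push_cast
    rw [hab, sub_self]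
  obtain ⟨t, ht⟩ := h1
  have hq' : (q : ℝ) ≠ 0 := by exact_mod_cast hq.ne'
  have h2 : (h : ℝ) * (a / q) = (h : ℝ) * (b / q) + ((h * t : ℤ) : ℝ) := by
    have h3 : (a : ℝ) = b + q * t := by
      have : (a : ℝ) - b = q * t := by exact_mod_cast ht
      linarith
    rw [h3]
    push_cast
    field_simp
  rw [h2, e_add, e_int, mul_one]

lemma e_sum_congr {r : ℕ} (q : ℕ) (hq : 0 < q) (h : Fin r → ℕ) (a b : Fin r → ℤ)
    (hab : ∀ i, ((a i : ℤ) : ZMod q) = ((b i : ℤ) : ZMod q)) :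
    e (∑ i, (h i : ℝ) * (a i / q)) = e (∑ i, (h i : ℝ) * (b i / q)) := by
  rw [e_sum, e_sum]
  exact prod_congr rfl fun i _ => e_nat_period q hq (h i) _ _ (hab i)

/-- the sum over all residues vanishes -/
lemma full_sum {n r : ℕ} (q : ℕ) [NeZero q] (f : (Fin n → ZMod q) → Fin r → ZMod q)
    (hf : ∀ ρ ρ' : Fin r → ZMod q, Nat.card {y // f y = ρ} = Nat.card {y // f y = ρ'})
    (h : Fin r → ℕ) (hh : ∀ j, h j < q) (h0 : h ≠ 0) :
    ∑ y : Fin n → ZMod q, e (∑ i, (h i : ℝ) * (((f y i).val : ℤ) / q)) = 0 := by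
  classical
  have hq : 0 < q := Nat.pos_of_ne_zero (NeZero.ne q)
  rw [← Finset.sum_fiberwise univ f]
  have h1 : ∀ ρ : Fin r → ZMod q, ∑ y ∈ univ.filter (fun y => f y = ρ), e (∑ i, (h i : ℝ) * (((f y i).val : ℤ) / q)) =
      (Nat.card {y // f y = 0} : ℂ) * ∏ i, e ((h i : ℝ) * (((ρ i).val : ℤ) / q)) := by
    intro ρ
    rw [sum_congr rfl (fun y hy => by
      rw [(mem_filter.1 hy).2] : ∀ y ∈ univ.filter (fun y => f y = ρ), e (∑ i, (h i : ℝ) * (((f y i).val : ℤ) / q)) =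
        e (∑ i, (h i : ℝ) * (((ρ i).val : ℤ) / q)))]
    rw [sum_const, nsmul_eq_mul, e_sum, hf 0 ρ, Nat.card_eq_fintype_card, Fintype.card_subtype]
  rw [sum_congr rfl (fun ρ _ => h1 ρ), ← mul_sum]
  have h2 : ∑ ρ : Fin r → ZMod q, ∏ i, e ((h i : ℝ) * (((ρ i).val : ℤ) / q)) =
      ∏ i, ∑ t : ZMod q, e ((h i : ℝ) * ((t.val : ℤ) / q)) := by
    rw [Finset.prod_univ_sum, Fintype.piFinset_univ]
  rw [h2]
  obtain ⟨i, hi⟩ : ∃ i, h i ≠ 0 := by
    by_contra hcon
    push Not at hcon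
    exact h0 (funext hcon)
  have h3 : ∑ t : ZMod q, e ((h i : ℝ) * ((t.val : ℤ) / q)) = 0 := by
    have h4 : ∑ t : ZMod q, e ((h i : ℝ) * ((t.val : ℤ) / q)) = ∑ t ∈ range q, e (((h i : ℕ) : ℤ) * ((t : ℝ) / q)) := by
      refine Finset.sum_bij (fun t _ => t.val) (fun t _ => mem_range.2 (ZMod.val_lt t))
        (fun a _ b _ hab => ZMod.val_injective q hab)
        (fun b hb => ⟨(b : ZMod q), mem_univ _, ZMod.val_natCast_of_lt (mem_range.1 hb)⟩) ?_
      intro t _
      push_cast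
      rfl
    rw [h4]
    apply sum_char q hq
    intro hd
    have h5 : q ∣ h i := by exact_mod_cast hd
    exact hi (Nat.eq_zero_of_dvd_of_lt h5 (hh i))
  rw [prod_eq_zero (mem_univ i) h3, mul_zero]

/-- the sum over a box with sides divisible by `q` vanishes -/
lemma sub_box {n r : ℕ} (q : ℕ) (hq : 0 < q) (F : (Fin n → ℤ) → Fin r → ℤ) (hF : Balanced q F)
    (a : Fin n → ℤ) (k : Fin n → ℕ) (h : Fin r → ℕ) (hh : ∀ j, h j < q) (h0 : h ≠ 0) :
    ∑ t ∈ Fintype.piFinset (fun j => range (q * k j)),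
      e (∑ i, (h i : ℝ) * (F (fun j => a j + t j) i / q)) = 0 := by
  classical
  have : NeZero q := ⟨hq.ne'⟩
  obtain ⟨f, hf1, hf2⟩ := hF
  obtain ⟨G, hG⟩ : ∃ G : (Fin n → ZMod q) → ℂ, G = fun y => e (∑ i, (h i : ℝ) * (((f y i).val : ℤ) / q)) := ⟨_, rfl⟩
  have hFG : ∀ x : Fin n → ℤ, e (∑ i, (h i : ℝ) * (F x i / q)) = G (fun j => ((x j : ℤ) : ZMod q)) := by
    intro x
    rw [hG]
    refine e_sum_congr q hq h _ _ fun i => ?_
    have h1 : ((F x i : ℤ) : ZMod q) = f (fun j => ((x j : ℤ) : ZMod q)) i := congrFun (hf1 x) i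
    rw [h1]
    push_cast
    rw [ZMod.natCast_zmod_val]
  simp_rw [hFG]
  have hbij : ∑ t ∈ Fintype.piFinset (fun j => range (q * k j)), G (fun j => ((a j + (t j : ℤ) : ℤ) : ZMod q)) =
      ∑ uv ∈ (Fintype.piFinset (fun j => range (k j))) ×ˢ (Fintype.piFinset (fun _ : Fin n => range q)),
        G (fun j => ((a j + (uv.2 j : ℤ) : ℤ) : ZMod q)) := by
    refine Finset.sum_nbij' (fun t => (fun j => t j / q, fun j => t j % q)) (fun uv j => q * uv.1 j + uv.2 j)
      ?_ ?_ ?_ ?_ ?_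
    · intro t ht
      rw [Fintype.mem_piFinset] at ht
      rw [mem_product, Fintype.mem_piFinset, Fintype.mem_piFinset]
      refine ⟨fun j => mem_range.2 ?_, fun j => mem_range.2 (Nat.mod_lt _ hq)⟩
      exact Nat.div_lt_of_lt_mul (mem_range.1 (ht j))
    · intro uv huv
      rw [mem_product, Fintype.mem_piFinset, Fintype.mem_piFinset] at huv
      rw [Fintype.mem_piFinset]
      intro j
      have h1 := mem_range.1 (huv.1 j)
      have h2 := mem_range.1 (huv.2 j)
      rw [mem_range]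
      calc q * uv.1 j + uv.2 j < q * uv.1 j + q := by omega
        _ = q * (uv.1 j + 1) := by ring
        _ ≤ q * k j := Nat.mul_le_mul_left _ h1
    · intro t _
      funext j
      exact Nat.div_add_mod _ _
    · intro uv huv
      rw [mem_product, Fintype.mem_piFinset, Fintype.mem_piFinset] at huv
      refine Prod.ext (funext fun j => ?_) (funext fun j => ?_)
      · have h2 := mem_range.1 (huv.2 j)
        simp only
        rw [Nat.mul_add_div hq, Nat.div_eq_of_lt h2, add_zero]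
      · have h2 := mem_range.1 (huv.2 j)
        simp only
        rw [Nat.mul_add_mod, Nat.mod_eq_of_lt h2]
    · intro t _
      congr 1
      funext j
      have h1 : ((t j : ℕ) : ZMod q) = ((t j % q : ℕ) : ZMod q) := (ZMod.natCast_mod _ _).symm
      push_cast
      rw [h1]
  rw [hbij, sum_product]
  apply sum_eq_zero
  intro u _
  have hb2 : ∑ v ∈ Fintype.piFinset (fun _ : Fin n => range q), G (fun j => ((a j + (v j : ℤ) : ℤ) : ZMod q)) =
      ∑ y : Fin n → ZMod q, G y := by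
    refine Finset.sum_bij (fun v _ => fun j => ((a j + (v j : ℤ) : ℤ) : ZMod q)) (fun _ _ => mem_univ _) ?_ ?_ ?_
    · intro v hv w hw hvw
      rw [Fintype.mem_piFinset] at hv hw
      funext j
      have h1 := congrFun hvw j
      push_cast at h1
      have h2 : ((v j : ℕ) : ZMod q) = ((w j : ℕ) : ZMod q) := add_left_cancel h1
      have h3 := congrArg ZMod.val h2
      rwa [ZMod.val_natCast_of_lt (mem_range.1 (hv j)), ZMod.val_natCast_of_lt (mem_range.1 (hw j))] at h3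
    · intro y _
      refine ⟨fun j => (y j - ((a j : ℤ) : ZMod q)).val, ?_, ?_⟩
      · rw [Fintype.mem_piFinset]
        exact fun j => mem_range.2 (ZMod.val_lt _)
      · funext j
        push_cast
        rw [ZMod.natCast_zmod_val]
        ring
    · intro v _
      rfl
  rw [hb2, hG]
  exact full_sum q f hf2 h hh h0

lemma one_sub_prod {ι : Type} (s : Finset ι) (t : ι → ℝ) (h0 : ∀ j ∈ s, 0 ≤ t j) (h1 : ∀ j ∈ s, t j ≤ 1) :
    0 ≤ ∏ j ∈ s, (1 - t j) ∧ ∏ j ∈ s, (1 - t j) ≤ 1 ∧ 1 - ∑ j ∈ s, t j ≤ ∏ j ∈ s, (1 - t j) := by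
  classical
  induction s using Finset.induction_on with
  | empty => simp
  | insert a s ha ih =>
    obtain ⟨i1, i2, i3⟩ := ih (fun j hj => h0 j (mem_insert_of_mem hj)) (fun j hj => h1 j (mem_insert_of_mem hj))
    have g0 := h0 a (mem_insert_self a s)
    have g1 := h1 a (mem_insert_self a s)
    rw [prod_insert ha, sum_insert ha]
    refine ⟨mul_nonneg (by linarith) i1, ?_, ?_⟩
    · nlinarith
    · nlinarith

/-- the exponential sums over boxes -/
lemma box_le {n r : ℕ} (q : ℕ) (hq : 0 < q) (F : (Fin n → ℤ) → Fin r → ℤ) (hF : Balanced q F)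
    (a : Fin n → ℤ) (N : Fin n → ℕ) (D : ℝ) (hD : 0 < D) (hN : ∀ j, D ≤ N j) (h : Fin r → ℕ) (hh : ∀ j, h j < q) (h0 : h ≠ 0) :
    ‖∑ t ∈ Fintype.piFinset (fun j => range (N j)),
      e (∑ i, (h i : ℝ) * (F (fun j => a j + t j) i / q))‖ ≤
      (Fintype.piFinset (fun j => range (N j))).card * (n * (q / D)) := by
  classical
  have hN0 : ∀ j, (0 : ℝ) < N j := fun j => lt_of_lt_of_le hD (hN j)
  have hsub : Fintype.piFinset (fun j => range (q * (N j / q))) ⊆ Fintype.piFinset (fun j => range (N j)) := by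
    intro t ht
    rw [Fintype.mem_piFinset] at ht ⊢
    intro j
    have := mem_range.1 (ht j)
    exact mem_range.2 (lt_of_lt_of_le this (Nat.mul_div_le _ _))
  rw [← Finset.sum_sdiff hsub, sub_box q hq F hF a (fun j => N j / q) h hh h0, add_zero]
  have h1 : ‖∑ t ∈ Fintype.piFinset (fun j => range (N j)) \ Fintype.piFinset (fun j => range (q * (N j / q))),
      e (∑ i, (h i : ℝ) * (F (fun j => a j + t j) i / q))‖ ≤
      ((Fintype.piFinset (fun j => range (N j)) \ Fintype.piFinset (fun j => range (q * (N j / q)))).card : ℝ) := by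
    refine (norm_sum_le _ _).trans ?_
    rw [sum_congr rfl (fun x _ => norm_e _)]
    simp
  refine h1.trans ?_
  rw [card_sdiff_of_subset hsub, Nat.cast_sub (card_le_card hsub), Fintype.card_piFinset, Fintype.card_piFinset]
  simp only [card_range]
  push_cast
  obtain ⟨t, ht⟩ : ∃ t : Fin n → ℝ, t = fun j => ((N j % q : ℕ) : ℝ) / N j := ⟨_, rfl⟩
  have e1 : ∀ j, (q : ℝ) * ((N j / q : ℕ) : ℝ) = N j * (1 - t j) := by
    intro j
    have h2 : (q : ℝ) * ((N j / q : ℕ) : ℝ) + ((N j % q : ℕ) : ℝ) = N j := by exact_mod_cast Nat.div_add_mod (N j) q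
    rw [ht]
    simp only
    rw [mul_sub, mul_one, mul_div_cancel₀ _ (hN0 j).ne']
    linarith
  rw [prod_congr rfl (fun j _ => e1 j), prod_mul_distrib]
  have ht0 : ∀ j, 0 ≤ t j := fun j => by rw [ht]; positivity
  have htq : ∀ j, t j ≤ q / D := by
    intro j
    rw [ht]
    apply div_le_div₀ (Nat.cast_nonneg _) _ hD (hN j)
    exact_mod_cast (Nat.mod_lt _ hq).le
  have ht1 : ∀ j, t j ≤ 1 := by
    intro j
    rw [ht]
    simp only
    rw [div_le_one (hN0 j)]
    exact_mod_cast Nat.mod_le _ _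
  obtain ⟨i1, i2, i3⟩ := one_sub_prod univ t (fun j _ => ht0 j) (fun j _ => ht1 j)
  have h3 : ∑ j, t j ≤ n * (q / D) := by
    calc ∑ j, t j ≤ ∑ _j : Fin n, (q / D : ℝ) := sum_le_sum fun j _ => htq j
      _ = n * (q / D) := by simp
  have hP : (0 : ℝ) ≤ ∏ j, (N j : ℝ) := prod_nonneg fun _ _ => Nat.cast_nonneg _
  calc ∏ j, (N j : ℝ) - (∏ j, (N j : ℝ)) * ∏ j, (1 - t j) = (∏ j, (N j : ℝ)) * (1 - ∏ j, (1 - t j)) := by ring
    _ ≤ (∏ j, (N j : ℝ)) * (n * (q / D)) := mul_le_mul_of_nonneg_left (by linarith) hP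

open Classical in
/-- **Balanced maps.** -/
theorem balanced (r n : ℕ) (hr : 1 ≤ r) (ε : ℝ) (h0 : 0 < ε) (h1 : ε ≤ 1) :
    ∃ κ : ℝ, 0 < κ ∧ ∀ᶠ M : ℝ in atTop, ∀ F : (Fin n → ℤ) → Fin r → ℤ,
    (∀ q : ℕ, 1 ≤ q → (q : ℝ) ≤ M ^ ε → Balanced q F) →
    ∀ (a : Fin n → ℤ) (N : Fin n → ℕ), (∀ j, M ^ ε ≤ N j) →
    (∀ x : Fin n → ℤ, (∀ j, a j ≤ x j ∧ x j < a j + N j) → ∀ i, M ^ ε ≤ F x i) →
    (∏ j, (N j : ℝ)) * M ^ (-ε) ≤
      (((Fintype.piFinset fun j => range (N j)).filter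
        (fun t => Iso (κ * ff M) (F (fun j => a j + t j)))).card : ℝ) := by
  obtain ⟨κ, hκ, hc⟩ := crit_many r hr (ε / 3) (by linarith) (by linarith)
  refine ⟨κ, hκ, ?_⟩
  filter_upwards [hc, eventually_ge_atTop (1 : ℝ),
    (tendsto_rpow_atTop (show (0 : ℝ) < ε / 3 by linarith)).eventually_ge_atTop (n : ℝ)] with M hM hM1 hMn
  intro F hF a N hN hpos
  have hM0 : 0 < M := by linarith
  have hmono : ∀ x y : ℝ, x ≤ y → M ^ x ≤ M ^ y := fun x y h => Real.rpow_le_rpow_of_exponent_le hM1 h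
  have h2 := hM (Fin n → ℕ) (Fintype.piFinset fun j => range (N j))
    (fun t => F (fun j => a j + t j)) (by
      intro t ht i
      rw [Fintype.mem_piFinset] at ht
      refine (hmono _ _ (by linarith)).trans (hpos _ (fun j => ?_) i)
      have := mem_range.1 (ht j)
      constructor
      · linarith [Nat.cast_nonneg (α := ℤ) (t j)]
      · have h3 : (t j : ℤ) < N j := by exact_mod_cast this
        linarith) (by
      intro q hq hqM h hh hh0
      refine (box_le q hq F (hF q hq (hqM.trans (hmono _ _ (by linarith)))) a N (M ^ ε) (by positivity) hN h hh hh0).trans ?_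
      refine mul_le_mul_of_nonneg_left ?_ (Nat.cast_nonneg _)
      calc (n : ℝ) * (q / M ^ ε) ≤ M ^ (ε / 3) * (M ^ (ε / 3) / M ^ ε) := by
            apply mul_le_mul hMn _ (by positivity) (by positivity)
            exact div_le_div_of_nonneg_right hqM (by positivity)
        _ = M ^ (-(ε / 3)) := by
            rw [← Real.rpow_sub hM0, ← Real.rpow_add hM0]
            congr 1
            ring)
  refine le_trans ?_ h2
  rw [Fintype.card_piFinset]
  push_cast
  simp only [card_range]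
  exact mul_le_mul_of_nonneg_left (hmono _ _ (by linarith)) (prod_nonneg fun _ _ => Nat.cast_nonneg _)

/-- polynomial automorphisms are balanced -/
lemma balanced_aut {d : ℕ} (Φ : MvPolynomial (Fin d) ℤ ≃ₐ[ℤ] MvPolynomial (Fin d) ℤ) (q : ℕ) :
    Balanced q (fun x i => MvPolynomial.eval x (Φ (MvPolynomial.X i))) := by
  have key : ∀ (Ψ : MvPolynomial (Fin d) ℤ ≃ₐ[ℤ] MvPolynomial (Fin d) ℤ) (y : Fin d → ZMod q)
      (P : MvPolynomial (Fin d) ℤ),
      MvPolynomial.aeval (fun i => MvPolynomial.aeval y (Ψ (MvPolynomial.X i))) P = MvPolynomial.aeval y (Ψ P) := by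
    intro Ψ y P
    have h : (MvPolynomial.aeval (fun i => MvPolynomial.aeval y (Ψ (MvPolynomial.X i))) :
        MvPolynomial (Fin d) ℤ →ₐ[ℤ] ZMod q) =
        (MvPolynomial.aeval y : MvPolynomial (Fin d) ℤ →ₐ[ℤ] ZMod q).comp
          (Ψ : MvPolynomial (Fin d) ℤ →ₐ[ℤ] MvPolynomial (Fin d) ℤ) := by
      apply MvPolynomial.algHom_ext
      intro k
      simp
    exact congrArg (fun f => f P) h
  refine ⟨fun y i => MvPolynomial.aeval y (Φ (MvPolynomial.X i)), fun x => ?_, fun ρ ρ' => ?_⟩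
  · funext i
    have h1 : (Int.castRingHom (ZMod q)) (MvPolynomial.eval x (Φ (MvPolynomial.X i))) =
        MvPolynomial.aeval (fun j => ((x j : ℤ) : ZMod q)) (Φ (MvPolynomial.X i)) := by
      rw [MvPolynomial.aeval_def, MvPolynomial.eval, MvPolynomial.coe_eval₂Hom, MvPolynomial.hom_eval₂]
      congr 1
    exact h1
  · have hone : ∀ ρ : Fin d → ZMod q,
        Nat.card {y : Fin d → ZMod q // (fun i => MvPolynomial.aeval y (Φ (MvPolynomial.X i))) = ρ} = 1 := by
      intro ρ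
      rw [Nat.card_eq_one_iff_unique]
      constructor
      · constructor
        rintro ⟨y, hy⟩ ⟨z, hz⟩
        apply Subtype.ext
        have hinv : ∀ w : Fin d → ZMod q, (fun i => MvPolynomial.aeval w (Φ (MvPolynomial.X i))) = ρ →
            w = fun i => MvPolynomial.aeval ρ (Φ.symm (MvPolynomial.X i)) := by
          intro w hw
          funext i
          rw [← hw, key Φ w, AlgEquiv.apply_symm_apply, MvPolynomial.aeval_X]
        exact (hinv y hy).trans (hinv z hz).symm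
      · refine ⟨⟨fun i => MvPolynomial.aeval ρ (Φ.symm (MvPolynomial.X i)), ?_⟩⟩
        funext i
        rw [key Φ.symm ρ, AlgEquiv.symm_apply_apply, MvPolynomial.aeval_X]
    rw [hone, hone]

end Pool.Agent.Q318.RG
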