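import Pool.Agent.Q46.MH.Crit

set_option autoImplicit false

/-! # Unimodular images of boxes: all coordinates in record gaps -/

namespace Pool.Agent.Q318.RG

open Finset Filter
open Pool.Agent.H469R2.NK (e norm_e e_add)
open Pool.Agent.TH915.PW (e_int sum_char)
open Pool.Agent.W147.PS (ff ff_compare ev_pow)
open Pool.Agent.Q46.MH
open Pool.Agent.Y961.JR

/-- a complete period vanishes -/
lemma period (q : ℕ) (hq : 0 < q) (m : ℤ) (hm : ¬ (q : ℤ) ∣ m) (b : ℕ) :
    ∑ x ∈ range q, e ((m : ℝ) * (((b + x : ℕ) : ℝ) / q)) = 0 := by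
  have h1 := sum_char q hq m hm
  have h2 : ∀ x ∈ range q, e ((m : ℝ) * (((b + x : ℕ) : ℝ) / q)) =
      e ((m : ℝ) * (b / q)) * e (m * ((x : ℝ) / q)) := by
    intro x _
    rw [← e_add]
    congr 1
    push_cast
    ring
  rw [sum_congr rfl h2, ← mul_sum, h1, mul_zero]

/-- incomplete sums -/
lemma geo (q : ℕ) (hq : 0 < q) (m : ℤ) (hm : ¬ (q : ℤ) ∣ m) (n : ℕ) :
    ‖∑ x ∈ range n, e ((m : ℝ) * ((x : ℝ) / q))‖ ≤ q := by
  induction n using Nat.strong_induction_on with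
  | _ n ih =>
    rcases lt_or_ge n q with h | h
    · refine (norm_sum_le _ _).trans ?_
      rw [sum_congr rfl (fun x _ => norm_e _)]
      simp
      exact_mod_cast h.le
    · obtain ⟨t, rfl⟩ := Nat.exists_eq_add_of_le' h
      rw [sum_range_add]
      have h1 := period q hq m hm t
      rw [h1, add_zero]
      exact ih t (by omega)


/-- the image of the vector `h` under the transposed matrix is not divisible by `q` -/
lemma exists_coord {r : ℕ} (A : Matrix (Fin r) (Fin r) ℤ) (hA : IsUnit A.det) (q : ℕ)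
    (h : Fin r → ℕ) (hq : ∀ j, h j < q) (h0 : h ≠ 0) :
    ∃ j, ¬ (q : ℤ) ∣ ∑ i, (h i : ℤ) * A i j := by
  by_contra hcon
  push Not at hcon
  apply h0
  funext k
  set c : Fin r → ℤ := fun j => ∑ i, (h i : ℤ) * A i j with hc
  have h1 : ((h k : ℕ) : ℤ) = ∑ j, c j * A⁻¹ j k := by
    have h2 : Matrix.vecMul (Matrix.vecMul (fun i => (h i : ℤ)) A) A⁻¹ = fun i => (h i : ℤ) := by
      rw [Matrix.vecMul_vecMul, Matrix.mul_nonsing_inv A hA, Matrix.vecMul_one]
    have h3 := congrFun h2 k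
    simp only [Matrix.vecMul, dotProduct] at h3
    rw [← h3]
  have h2 : (q : ℤ) ∣ (h k : ℤ) := by
    rw [h1]
    exact dvd_sum fun j _ => Dvd.dvd.mul_right (hcon j) _
  have h3 : q ∣ h k := by exact_mod_cast h2
  exact Nat.eq_zero_of_dvd_of_lt h3 (hq k)

/-- the exponential sums over the image of a box -/
lemma box_sum {r : ℕ} (A : Matrix (Fin r) (Fin r) ℤ) (hA : IsUnit A.det) (b : Fin r → ℤ)
    (N : Fin r → ℕ) (B : ℝ) (q : ℕ) (hq0 : 0 < q) (hB : ∀ j, (q : ℝ) ≤ N j * B)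
    (h : Fin r → ℕ) (hq : ∀ j, h j < q) (h0 : h ≠ 0) :
    ‖∑ x ∈ Fintype.piFinset (fun j => range (N j)),
      e (∑ i, (h i : ℝ) * (((b i + ∑ j, A i j * (x j : ℤ) : ℤ) : ℝ) / q))‖ ≤
      (Fintype.piFinset (fun j => range (N j))).card * B := by
  classical
  set c : Fin r → ℤ := fun j => ∑ i, (h i : ℤ) * A i j with hc
  obtain ⟨j0, hj0⟩ := exists_coord A hA q h hq h0
  have e1 : ∀ x : Fin r → ℕ, e (∑ i, (h i : ℝ) * (((b i + ∑ j, A i j * (x j : ℤ) : ℤ) : ℝ) / q)) =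
      e (∑ i, (h i : ℝ) * (b i / q)) * ∏ j, e ((c j : ℝ) * ((x j : ℝ) / q)) := by
    intro x
    rw [← e_sum, ← e_add]
    congr 1
    have e2 : ∑ j, (c j : ℝ) * ((x j : ℝ) / q) = ∑ i, (h i : ℝ) * ((∑ j, (A i j : ℝ) * x j) / q) := by
      have e3 : ∀ j, (c j : ℝ) * ((x j : ℝ) / q) = ∑ i, (h i : ℝ) * (A i j : ℝ) * (x j / q) := by
        intro j
        rw [hc]
        push_cast
        rw [sum_mul]
      rw [sum_congr rfl (fun j _ => e3 j), sum_comm]
      refine sum_congr rfl fun i _ => ?_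
      rw [sum_div, mul_sum]
      refine sum_congr rfl fun j _ => ?_
      ring
    rw [e2, ← sum_add_distrib]
    refine sum_congr rfl fun i _ => ?_
    push_cast
    ring
  rw [sum_congr rfl (fun x _ => e1 x), ← mul_sum, norm_mul, norm_e, one_mul,
    ← Finset.prod_univ_sum (fun j => range (N j)) (fun j x => e ((c j : ℝ) * ((x : ℝ) / q))), norm_prod,
    Fintype.card_piFinset]
  have h1 : ∏ j ∈ univ.erase j0, ‖∑ x ∈ range (N j), e ((c j : ℝ) * ((x : ℝ) / q))‖ ≤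
      ∏ j ∈ univ.erase j0, (N j : ℝ) := by
    refine prod_le_prod (fun j _ => norm_nonneg _) fun j _ => ?_
    refine (norm_sum_le _ _).trans ?_
    rw [sum_congr rfl (fun x _ => norm_e _)]
    simp
  have h2 := geo q hq0 (c j0) hj0 (N j0)
  rw [← mul_prod_erase univ _ (mem_univ j0)]
  push_cast
  rw [← mul_prod_erase univ (fun j => ((range (N j)).card : ℝ)) (mem_univ j0)]
  simp only [card_range]
  have h3 : (0 : ℝ) ≤ ∏ j ∈ univ.erase j0, (N j : ℝ) := prod_nonneg fun _ _ => Nat.cast_nonneg _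
  calc _ ≤ (q : ℝ) * ∏ j ∈ univ.erase j0, (N j : ℝ) :=
        mul_le_mul h2 h1 (prod_nonneg fun _ _ => norm_nonneg _) (Nat.cast_nonneg _)
    _ ≤ (N j0 * B) * ∏ j ∈ univ.erase j0, (N j : ℝ) := mul_le_mul_of_nonneg_right (hB j0) h3
    _ = _ := by ring

open Classical in
/-- **Unimodular images of boxes.** -/
theorem unimod (r : ℕ) (hr : 1 ≤ r) (ε : ℝ) (h0 : 0 < ε) (h1 : ε ≤ 1) :
    ∃ κ : ℝ, 0 < κ ∧ ∀ᶠ M : ℝ in atTop, ∀ (A : Matrix (Fin r) (Fin r) ℤ), IsUnit A.det →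
    ∀ (b : Fin r → ℤ) (N : Fin r → ℕ), (∀ j, M ^ ε ≤ N j) →
    (∀ x : Fin r → ℕ, (∀ j, x j < N j) →
      ∀ i, M ^ ε ≤ ((b i + ∑ j, A i j * (x j : ℤ) : ℤ) : ℝ)) →
    (∏ j, (N j : ℝ)) * M ^ (-ε) ≤
      (((Fintype.piFinset fun j => range (N j)).filter
        (fun x => Iso (κ * ff M) (fun i => b i + ∑ j, A i j * (x j : ℤ)))).card : ℝ) := by
  obtain ⟨κ, hκ, hc⟩ := crit_many r hr (ε / 2) (by linarith) (by linarith)
  refine ⟨κ, hκ, ?_⟩
  filter_upwards [hc, eventually_ge_atTop (1 : ℝ)] with M hM hM1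
  intro A hA b N hN hpos
  have hM0 : 0 < M := by linarith
  have hmono : ∀ x y : ℝ, x ≤ y → M ^ x ≤ M ^ y := fun x y h => Real.rpow_le_rpow_of_exponent_le hM1 h
  have h2 := hM (Fin r → ℕ) (Fintype.piFinset fun j => range (N j))
    (fun x i => b i + ∑ j, A i j * (x j : ℤ)) (by
      intro x hx i
      rw [Fintype.mem_piFinset] at hx
      refine (hmono _ _ (by linarith)).trans (hpos x (fun j => mem_range.1 (hx j)) i)) (by
      intro q hq hqM h hh hh0
      refine box_sum A hA b N _ q hq (fun j => ?_) h hh hh0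
      calc (q : ℝ) ≤ M ^ (ε / 2) := hqM
        _ = M ^ ε * M ^ (-(ε / 2)) := by
            rw [← Real.rpow_add hM0]
            congr 1
            ring
        _ ≤ N j * M ^ (-(ε / 2)) := mul_le_mul_of_nonneg_right (hN j) (by positivity))
  refine le_trans ?_ h2
  rw [Fintype.card_piFinset]
  push_cast
  simp only [card_range]
  exact mul_le_mul_of_nonneg_left (hmono _ _ (by linarith)) (prod_nonneg fun _ _ => Nat.cast_nonneg _)

end Pool.Agent.Q318.RG
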