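import Pool.Agent.Q318.RG.Box

set_option autoImplicit false

/-! # Systems of linear forms which are independent modulo the small primes -/

namespace Pool.Agent.Q318.RG

open Finset Filter
open Pool.Agent.H469R2.NK (e norm_e e_add)
open Pool.Agent.W147.PS (ff ff_compare ev_pow)
open Pool.Agent.Q46.MH
open Pool.Agent.Y961.JR

/-- independence modulo primes gives independence modulo all moduli without large prime factors -/
lemma indep {r n : ℕ} (A : Matrix (Fin r) (Fin n) ℤ) (q : ℕ) (hq0 : 0 < q)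
    (hA : ∀ l : ℕ, l.Prime → l ∣ q → ∀ h : Fin r → ℤ, (∀ j, (l : ℤ) ∣ ∑ i, h i * A i j) →
      ∀ i, (l : ℤ) ∣ h i) (h : Fin r → ℤ) (hh : ∀ j, (q : ℤ) ∣ ∑ i, h i * A i j) : ∀ i, (q : ℤ) ∣ h i := by
  induction q using Nat.strong_induction_on generalizing h with
  | _ q ih =>
    rcases Nat.lt_or_ge 1 q with h1 | h1
    · obtain ⟨l, hl, hlq⟩ := Nat.exists_prime_and_dvd h1.ne'
      obtain ⟨m, rfl⟩ := hlq
      have hm0 : 0 < m := Nat.pos_of_mul_pos_left hq0 |> fun _ => by
        rcases Nat.eq_zero_or_pos m with h2 | h2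
        · simp [h2] at hq0
        · exact h2
      have h2 := hA l hl (dvd_mul_right l m) h (fun j => by
        refine dvd_trans ?_ (hh j)
        push_cast
        exact dvd_mul_right _ _)
      choose g hg using h2
      have hl0 : (l : ℤ) ≠ 0 := by exact_mod_cast hl.ne_zero
      have h3 := ih m (by
          have := hl.two_le
          nlinarith) hm0
        (fun l' hl' hd => hA l' hl' (hd.trans (dvd_mul_left m l))) g (fun j => by
          have h4 := hh j
          have h5 : ∑ i, h i * A i j = l * ∑ i, g i * A i j := by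
            rw [mul_sum]
            refine sum_congr rfl fun i _ => ?_
            rw [hg i]
            ring
          rw [h5] at h4
          push_cast at h4
          exact (mul_dvd_mul_iff_left hl0).1 h4)
      intro i
      rw [hg i]
      push_cast
      exact mul_dvd_mul_left _ (h3 i)
    · intro i
      have : q = 1 := by omega
      rw [this]
      simp

/-- the exponential sums over the values -/
lemma form_sum {r n : ℕ} (A : Matrix (Fin r) (Fin n) ℤ) (b : Fin r → ℤ)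
    (N : Fin n → ℕ) (B : ℝ) (q : ℕ) (hq0 : 0 < q)
    (hA : ∀ l : ℕ, l.Prime → l ∣ q → ∀ h : Fin r → ℤ, (∀ j, (l : ℤ) ∣ ∑ i, h i * A i j) →
      ∀ i, (l : ℤ) ∣ h i) (hB : ∀ j, (q : ℝ) ≤ N j * B)
    (h : Fin r → ℕ) (hq : ∀ j, h j < q) (h0 : h ≠ 0) :
    ‖∑ x ∈ Fintype.piFinset (fun j => range (N j)),
      e (∑ i, (h i : ℝ) * (((b i + ∑ j, A i j * (x j : ℤ) : ℤ) : ℝ) / q))‖ ≤
      (Fintype.piFinset (fun j => range (N j))).card * B := by
  classical
  set c : Fin n → ℤ := fun j => ∑ i, (h i : ℤ) * A i j with hc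
  obtain ⟨j0, hj0⟩ : ∃ j, ¬ (q : ℤ) ∣ c j := by
    by_contra hcon
    push Not at hcon
    apply h0
    funext k
    have h3 : q ∣ h k := by exact_mod_cast indep A q hq0 hA (fun i => (h i : ℤ)) hcon k
    exact Nat.eq_zero_of_dvd_of_lt h3 (hq k)
  have e1 : ∀ x : Fin n → ℕ, e (∑ i, (h i : ℝ) * (((b i + ∑ j, A i j * (x j : ℤ) : ℤ) : ℝ) / q)) =
      e (∑ i, (h i : ℝ) * (b i / q)) * ∏ j, e ((c j : ℝ) * ((x j : ℝ) / q)) := by
    intro x
    rw [← e_sum, ← e_add]
    congr 1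
    have e2 : ∑ j, (c j : ℝ) * ((x j : ℝ) / q) = ∑ i, (h i : ℝ) * ((∑ j, (A i j : ℝ) * x j) / q) := by
      have e3 : ∀ j, (c j : ℝ) * ((x j : ℝ) / q) = ∑ i, (h i : ℝ) * (A i j : ℝ) * (x j / q) := by
        intro j
        rw [hc]
        push_cast
        rw [sum_mul]
      rw [sum_congr rfl (fun j _ => e3 j), sum_comm]
      refine sum_congr rfl fun i _ => ?_
      rw [sum_div, mul_sum]
      refine sum_congr rfl fun j _ => ?_
      ring
    rw [e2, ← sum_add_distrib]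
    refine sum_congr rfl fun i _ => ?_
    push_cast
    ring
  rw [sum_congr rfl (fun x _ => e1 x), ← mul_sum, norm_mul, norm_e, one_mul,
    ← Finset.prod_univ_sum (fun j => range (N j)) (fun j x => e ((c j : ℝ) * ((x : ℝ) / q))), norm_prod,
    Fintype.card_piFinset]
  have h1 : ∏ j ∈ univ.erase j0, ‖∑ x ∈ range (N j), e ((c j : ℝ) * ((x : ℝ) / q))‖ ≤
      ∏ j ∈ univ.erase j0, (N j : ℝ) := by
    refine prod_le_prod (fun j _ => norm_nonneg _) fun j _ => ?_
    refine (norm_sum_le _ _).trans ?_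
    rw [sum_congr rfl (fun x _ => norm_e _)]
    simp
  have h2 := geo q hq0 (c j0) hj0 (N j0)
  rw [← mul_prod_erase univ _ (mem_univ j0)]
  push_cast
  rw [← mul_prod_erase univ (fun j => ((range (N j)).card : ℝ)) (mem_univ j0)]
  simp only [card_range]
  have h3 : (0 : ℝ) ≤ ∏ j ∈ univ.erase j0, (N j : ℝ) := prod_nonneg fun _ _ => Nat.cast_nonneg _
  calc _ ≤ (q : ℝ) * ∏ j ∈ univ.erase j0, (N j : ℝ) :=
        mul_le_mul h2 h1 (prod_nonneg fun _ _ => norm_nonneg _) (Nat.cast_nonneg _)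
    _ ≤ (N j0 * B) * ∏ j ∈ univ.erase j0, (N j : ℝ) := mul_le_mul_of_nonneg_right (hB j0) h3
    _ = _ := by ring

open Classical in
/-- **Systems of linear forms.** -/
theorem forms (r : ℕ) (hr : 1 ≤ r) (ε : ℝ) (h0 : 0 < ε) (h1 : ε ≤ 1) :
    ∃ κ : ℝ, 0 < κ ∧ ∀ᶠ M : ℝ in atTop, ∀ (n : ℕ) (A : Matrix (Fin r) (Fin n) ℤ),
    (∀ l : ℕ, l.Prime → (l : ℝ) ≤ M ^ ε → ∀ h : Fin r → ℤ, (∀ j, (l : ℤ) ∣ ∑ i, h i * A i j) →
      ∀ i, (l : ℤ) ∣ h i) →
    ∀ (b : Fin r → ℤ) (N : Fin n → ℕ), (∀ j, M ^ ε ≤ N j) →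
    (∀ x : Fin n → ℕ, (∀ j, x j < N j) →
      ∀ i, M ^ ε ≤ ((b i + ∑ j, A i j * (x j : ℤ) : ℤ) : ℝ)) →
    (∏ j, (N j : ℝ)) * M ^ (-ε) ≤
      (((Fintype.piFinset fun j => range (N j)).filter
        (fun x => Iso (κ * ff M) (fun i => b i + ∑ j, A i j * (x j : ℤ)))).card : ℝ) := by
  obtain ⟨κ, hκ, hc⟩ := crit_many r hr (ε / 2) (by linarith) (by linarith)
  refine ⟨κ, hκ, ?_⟩
  filter_upwards [hc, eventually_ge_atTop (1 : ℝ)] with M hM hM1
  intro n A hA b N hN hpos
  have hM0 : 0 < M := by linarith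
  have hmono : ∀ x y : ℝ, x ≤ y → M ^ x ≤ M ^ y := fun x y h => Real.rpow_le_rpow_of_exponent_le hM1 h
  have h2 := hM (Fin n → ℕ) (Fintype.piFinset fun j => range (N j))
    (fun x i => b i + ∑ j, A i j * (x j : ℤ)) (by
      intro x hx i
      rw [Fintype.mem_piFinset] at hx
      refine (hmono _ _ (by linarith)).trans (hpos x (fun j => mem_range.1 (hx j)) i)) (by
      intro q hq hqM h hh hh0
      refine form_sum A b N _ q hq (fun l hl hlq => hA l hl ?_) (fun j => ?_) h hh hh0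
      · have h5 : (l : ℝ) ≤ q := by exact_mod_cast Nat.le_of_dvd hq hlq
        exact (h5.trans hqM).trans (hmono _ _ (by linarith))
      calc (q : ℝ) ≤ M ^ (ε / 2) := hqM
        _ = M ^ ε * M ^ (-(ε / 2)) := by
            rw [← Real.rpow_add hM0]
            congr 1
            ring
        _ ≤ N j * M ^ (-(ε / 2)) := mul_le_mul_of_nonneg_right (hN j) (by positivity))
  refine le_trans ?_ h2
  rw [Fintype.card_piFinset]
  push_cast
  simp only [card_range]
  exact mul_le_mul_of_nonneg_left (hmono _ _ (by linarith)) (prod_nonneg fun _ _ => Nat.cast_nonneg _)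

end Pool.Agent.Q318.RG
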