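import Pool.Agent.H341R2.WeilSharp

set_option autoImplicit false

/-! # Products of Legendre symbols: second moments of short sums -/

namespace Pool.Agent.Q318.RG

open Finset Polynomial

variable {p : ℕ} [Fact p.Prime]

/-- the polynomial of a finite set of shifts -/
noncomputable def fT (T : Finset (ZMod p)) (u : ZMod p) : (ZMod p)[X] := ∏ a ∈ T, (X + C (a + u))

/-- the product of the characters -/
noncomputable def ch (T : Finset (ZMod p)) (x : ZMod p) : ℝ :=
  ((∏ a ∈ T, quadraticChar (ZMod p) (x + a) : ℤ) : ℝ)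

lemma fT_eval (T : Finset (ZMod p)) (u x : ZMod p) :
    ((quadraticChar (ZMod p) ((fT T u).eval x) : ℤ) : ℝ) = ch T (x + u) := by
  unfold fT ch
  rw [eval_prod, map_prod]
  simp only [eval_add, eval_X, eval_C]
  congr 1
  refine prod_congr rfl fun a _ => ?_
  congr 1
  ring

lemma fT_monic (T : Finset (ZMod p)) (u : ZMod p) : (fT T u).Monic :=
  monic_prod_of_monic _ _ fun _ _ => monic_X_add_C _

lemma fT_natDegree (T : Finset (ZMod p)) (u : ZMod p) : (fT T u).natDegree = T.card := by
  unfold fT
  rw [natDegree_prod_of_monic _ _ fun _ _ => monic_X_add_C _]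
  simp only [natDegree_X_add_C, sum_const, smul_eq_mul, mul_one]

lemma abs_ch_le (T : Finset (ZMod p)) (x : ZMod p) : |ch T x| ≤ 1 := by
  unfold ch
  rw [Int.cast_prod, abs_prod]
  refine prod_le_one (fun _ _ => abs_nonneg _) fun a _ => ?_
  by_cases h0 : x + a = 0
  · rw [h0]
    simp
  · rcases quadraticChar_dichotomy h0 with h | h <;> rw [h] <;> simp

lemma not_sq (T : Finset (ZMod p)) (u v : ZMod p)
    (h : T.image (fun a => a + u) ≠ T.image (fun a => a + v)) (c : ZMod p) (g : (ZMod p)[X]) :
    fT T u * fT T v ≠ C c * g ^ 2 := by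
  classical
  intro heq
  have hcard : (T.image (fun a => a + v)).card ≤ (T.image (fun a => a + u)).card := by
    rw [card_image_of_injective _ (add_left_injective v), card_image_of_injective _ (add_left_injective u)]
  have hns : ¬ T.image (fun a => a + u) ⊆ T.image (fun a => a + v) := fun hs =>
    h (eq_of_subset_of_card_le hs hcard)
  rw [not_subset] at hns
  obtain ⟨b, hb1, hb2⟩ := hns
  rw [mem_image] at hb1
  obtain ⟨a₀, ha₀, rfl⟩ := hb1
  set r : (ZMod p)[X] := (∏ a ∈ T.erase a₀, (X + C (a + u))) * fT T v with hr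
  have hfac : fT T u * fT T v = (X + C (a₀ + u)) * r := by
    rw [hr, ← mul_assoc]
    congr 1
    exact (mul_prod_erase T (fun a => (X + C (a + u) : (ZMod p)[X])) ha₀).symm
  have hre : r.eval (-(a₀ + u)) ≠ 0 := by
    rw [hr, eval_mul]
    refine mul_ne_zero ?_ ?_
    · rw [eval_prod]
      refine prod_ne_zero_iff.2 fun a ha => ?_
      simp only [eval_add, eval_X, eval_C]
      intro h0
      apply (mem_erase.1 ha).1
      linear_combination h0
    · unfold fT
      rw [eval_prod]
      refine prod_ne_zero_iff.2 fun a ha => ?_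
      simp only [eval_add, eval_X, eval_C]
      intro h0
      apply hb2
      rw [mem_image]
      exact ⟨a, ha, by linear_combination h0⟩
  rw [hfac] at heq
  have hc : c ≠ 0 := by
    rintro rfl
    rw [C_0, zero_mul, mul_eq_zero] at heq
    rcases heq with h1 | h1
    · exact (monic_X_add_C (a₀ + u)).ne_zero h1
    · rw [h1] at hre
      simp at hre
  have h1 := congrArg (eval (-(a₀ + u))) heq
  simp only [eval_mul, eval_add, eval_X, eval_C, eval_pow, neg_add_cancel, zero_mul] at h1
  have hg0 : g.eval (-(a₀ + u)) = 0 := by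
    have := (mul_eq_zero.1 h1.symm).resolve_left hc
    exact pow_eq_zero_iff (two_ne_zero) |>.1 this
  have hdvd : (X + C (a₀ + u)) ∣ g := by
    have := (dvd_iff_isRoot (p := g) (a := -(a₀ + u))).2 hg0
    rwa [C_neg, sub_neg_eq_add] at this
  obtain ⟨g', hg'⟩ := hdvd
  have h2 : (X + C (a₀ + u)) * r = (X + C (a₀ + u)) * ((X + C (a₀ + u)) * (C c * g' ^ 2)) := by
    rw [heq, hg']
    ring
  have h3 := mul_left_cancel₀ (monic_X_add_C (a₀ + u)).ne_zero h2
  rw [h3] at hre
  simp at hre

/-- the correlations of the products -/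
lemma corr (hp : p ≠ 2) (T : Finset (ZMod p)) (hT : T.Nonempty) (u v : ZMod p)
    (h : T.image (fun a => a + u) ≠ T.image (fun a => a + v)) :
    |∑ x : ZMod p, ch T (x + u) * ch T (x + v)| ≤ 2 * T.card * Real.sqrt p := by
  have hF : ringChar (ZMod p) ≠ 2 := by rwa [ZMod.ringChar_zmod_n]
  have hdeg : (fT T u * fT T v).natDegree = 2 * T.card := by
    rw [(fT_monic T u).natDegree_mul (fT_monic T v), fT_natDegree, fT_natDegree]
    ring
  have h1 := Pool.Agent.H341R2.Sharp.weil_sharp hF (fT T u * fT T v)
    (by rw [hdeg]; have := hT.card_pos; omega) (not_sq T u v h)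
  rw [hdeg, ZMod.card] at h1
  have h2 : ∀ x : ZMod p, ((quadraticChar (ZMod p) ((fT T u * fT T v).eval x) : ℤ) : ℝ) =
      ch T (x + u) * ch T (x + v) := by
    intro x
    rw [eval_mul, map_mul, Int.cast_mul, fT_eval, fT_eval]
  simp only [h2] at h1
  refine h1.trans ?_
  have h3 : 0 ≤ Real.sqrt p := Real.sqrt_nonneg _
  push_cast
  nlinarith

/-- the second moment of the short sums -/
lemma second (hp : p ≠ 2) (T : Finset (ZMod p)) (hT : T.Nonempty) (Q : ZMod p) (hQ : Q ≠ 0) (H : ℕ)
    (hH : H ≤ p) :
    ∑ x : ZMod p, (∑ t ∈ range H, ch T (x + Q * t)) ^ 2 ≤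
      T.card * H * p + 2 * T.card * H ^ 2 * Real.sqrt p := by
  classical
  have e1 : ∑ x : ZMod p, (∑ t ∈ range H, ch T (x + Q * t)) ^ 2 =
      ∑ t' ∈ range H, ∑ t ∈ range H, ∑ x : ZMod p, ch T (x + Q * t) * ch T (x + Q * t') := by
    have : ∀ x : ZMod p, (∑ t ∈ range H, ch T (x + Q * t)) ^ 2 =
        ∑ t' ∈ range H, ∑ t ∈ range H, ch T (x + Q * t) * ch T (x + Q * t') := by
      intro x
      rw [sq, sum_mul_sum, sum_comm]
    rw [sum_congr rfl fun x _ => this x, sum_comm]
    refine sum_congr rfl fun t' _ => ?_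
    rw [sum_comm]
  rw [e1]
  have hone : ∀ t' ∈ range H, ∑ t ∈ range H, ∑ x : ZMod p, ch T (x + Q * t) * ch T (x + Q * t') ≤
      T.card * p + 2 * T.card * H * Real.sqrt p := by
    intro t' _
    set bad := (range H).filter (fun t : ℕ => T.image (fun a => a + Q * t) = T.image (fun a => a + Q * t'))
      with hbad
    have hcard : bad.card ≤ T.card := by
      obtain ⟨a₀, ha₀⟩ := hT
      calc bad.card ≤ (T.image (fun a => a + Q * (t' : ZMod p))).card := by
            refine card_le_card_of_injOn (fun t : ℕ => a₀ + Q * (t : ZMod p)) ?_ ?_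
            · intro t ht
              rw [hbad, mem_coe, mem_filter] at ht
              have h5 : a₀ + Q * (t : ZMod p) ∈ T.image (fun a => a + Q * (t : ZMod p)) :=
                mem_image.2 ⟨a₀, ha₀, rfl⟩
              rw [ht.2] at h5
              exact h5
            · intro t ht s hs hts
              rw [hbad, mem_coe, mem_filter, mem_range] at ht hs
              have h6 : (t : ZMod p) = s := mul_left_cancel₀ hQ (add_left_cancel hts)
              have h7 := (ZMod.natCast_eq_natCast_iff' t s p).1 h6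
              rwa [Nat.mod_eq_of_lt (by omega), Nat.mod_eq_of_lt (by omega)] at h7
        _ ≤ T.card := card_image_le
    have hsplit : ∀ t ∈ range H, ∑ x : ZMod p, ch T (x + Q * t) * ch T (x + Q * t') ≤
        (if t ∈ bad then (p : ℝ) else 0) + 2 * T.card * Real.sqrt p := by
      intro t ht
      have hs : 0 ≤ Real.sqrt p := Real.sqrt_nonneg _
      split_ifs with hb
      · have h8 : ∑ x : ZMod p, ch T (x + Q * t) * ch T (x + Q * t') ≤ ∑ _x : ZMod p, (1 : ℝ) := by
          refine sum_le_sum fun x _ => ?_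
          refine (le_abs_self _).trans ?_
          rw [abs_mul]
          exact mul_le_one₀ (abs_ch_le _ _) (abs_nonneg _) (abs_ch_le _ _)
        have h9 : ∑ _x : ZMod p, (1 : ℝ) = p := by simp [ZMod.card]
        have : 0 ≤ 2 * (T.card : ℝ) * Real.sqrt p := by positivity
        linarith
      · have h8 : T.image (fun a => a + Q * (t : ZMod p)) ≠ T.image (fun a => a + Q * (t' : ZMod p)) := by
          intro h9
          exact hb (by rw [hbad, mem_filter]; exact ⟨ht, h9⟩)
        have := (le_abs_self _).trans (corr hp T hT (Q * t) (Q * t') h8)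
        linarith
    refine (sum_le_sum hsplit).trans ?_
    rw [sum_add_distrib, ← sum_filter, sum_const, sum_const, card_range, nsmul_eq_mul, nsmul_eq_mul]
    have h10 : ((range H).filter (· ∈ bad)).card ≤ T.card := by
      refine le_trans (card_le_card ?_) hcard
      intro t ht
      exact (mem_filter.1 ht).2
    have h11 : (((range H).filter (· ∈ bad)).card : ℝ) * p ≤ T.card * p :=
      mul_le_mul_of_nonneg_right (by exact_mod_cast h10) (Nat.cast_nonneg _)
    nlinarith
  refine (sum_le_sum hone).trans (le_of_eq ?_)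
  rw [sum_const, card_range, nsmul_eq_mul]
  ring

end Pool.Agent.Q318.RG
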