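import Pool.Agent.Q318.RG.LegA
import Pool.Agent.Q46.MH.Crit

set_option autoImplicit false

/-! # Products of Legendre symbols: sums over intervals twisted by small rational frequencies -/

namespace Pool.Agent.Q318.RG

open Finset Filter
open Pool.Agent.H469R2.NK (e norm_e e_add)
open Pool.Agent.TH915.PW (e_int)
open Pool.Agent.W147.PS (ff ff_compare ev_pow)

/-- shifting the summation interval -/
lemma shift_le (W : ℕ → ℂ) (hW : ∀ x, ‖W x‖ ≤ 1) (A N m : ℕ) :
    ‖∑ x ∈ range N, W (A + x) - ∑ x ∈ range N, W (A + x + m)‖ ≤ 2 * m := by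
  induction m with
  | zero => simp
  | succ m ih =>
    have h1 : ∑ x ∈ range N, W (A + x + m) - ∑ x ∈ range N, W (A + x + (m + 1)) =
        W (A + m) - W (A + N + m) := by
      have h2 := sum_range_succ (fun x => W (A + x + m)) N
      have h3 := sum_range_succ' (fun x => W (A + x + m)) N
      have h4 : ∑ x ∈ range N, W (A + x + (m + 1)) = ∑ x ∈ range N, W (A + (x + 1) + m) := by
        refine sum_congr rfl fun x _ => ?_
        congr 1
        ring
      rw [h4]
      simp only [add_zero] at h3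
      linear_combination h3 - h2
    calc ‖∑ x ∈ range N, W (A + x) - ∑ x ∈ range N, W (A + x + (m + 1))‖
        = ‖(∑ x ∈ range N, W (A + x) - ∑ x ∈ range N, W (A + x + m)) +
            (W (A + m) - W (A + N + m))‖ := by
          rw [← h1]
          congr 1
          ring
      _ ≤ 2 * m + (1 + 1) := by
          refine (norm_add_le _ _).trans (add_le_add ih ?_)
          exact (norm_sub_le _ _).trans (add_le_add (hW _) (hW _))
      _ = 2 * ((m + 1 : ℕ) : ℝ) := by push_cast; ring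

variable {p : ℕ} [Fact p.Prime]

/-- twisted sums over an interval -/
lemma interval (hp : p ≠ 2) (T : Finset (ZMod p)) (hT : T.Nonempty) (A N : ℕ) (hN : N ≤ p)
    (q : ℕ) (hq : 0 < q) (hqp : q < p) (h : ℕ) (H : ℕ) (hH : H ≤ p) :
    H * ‖∑ x ∈ range N, e (h * (((A + x : ℕ) : ℝ) / q)) * (ch T ((A + x : ℕ) : ZMod p) : ℂ)‖ ≤
      Real.sqrt N * Real.sqrt (T.card * H * p + 2 * T.card * H ^ 2 * Real.sqrt p) + 2 * q * H ^ 2 := by
  classical
  have hpp : 0 < p := (Fact.out : p.Prime).pos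
  have hq' : (q : ℝ) ≠ 0 := by exact_mod_cast hq.ne'
  have hQ : ((q : ℕ) : ZMod p) ≠ 0 := by
    rw [Ne, ZMod.natCast_eq_zero_iff]
    exact Nat.not_dvd_of_pos_of_lt hq hqp
  set W : ℕ → ℂ := fun x => e (h * ((x : ℝ) / q)) * (ch T (x : ZMod p) : ℂ) with hW
  have hW1 : ∀ x, ‖W x‖ ≤ 1 := by
    intro x
    rw [hW]
    simp only [norm_mul, norm_e, one_mul, Complex.norm_real]
    exact abs_ch_le _ _
  set S : ℂ := ∑ x ∈ range N, W (A + x) with hS
  have hshift : ∀ t ∈ range H, ‖S - ∑ x ∈ range N, W (A + x + q * t)‖ ≤ 2 * q * H := by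
    intro t ht
    refine (shift_le W hW1 A N (q * t)).trans ?_
    have h1 : (t : ℝ) ≤ H := by exact_mod_cast (mem_range.1 ht).le
    have h2 : (0 : ℝ) ≤ q := Nat.cast_nonneg _
    push_cast
    nlinarith
  have hWs : ∀ x t : ℕ, W (x + q * t) = e (h * ((x : ℝ) / q)) * (ch T ((x : ZMod p) + q * t) : ℂ) := by
    intro x t
    rw [hW]
    simp only
    congr 1
    · have : (h : ℝ) * (((x + q * t : ℕ) : ℝ) / q) = h * ((x : ℝ) / q) + ((h * t : ℤ) : ℝ) := by
        push_cast
        field_simp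
      rw [this, e_add, e_int, mul_one]
    · push_cast
      rfl
  set G : ZMod p → ℝ := fun x => ∑ t ∈ range H, ch T (x + q * t) with hG
  have hsum : ∑ t ∈ range H, ∑ x ∈ range N, W (A + x + q * t) =
      ∑ x ∈ range N, e (h * (((A + x : ℕ) : ℝ) / q)) * (G ((A + x : ℕ) : ZMod p) : ℂ) := by
    rw [sum_comm]
    refine sum_congr rfl fun x _ => ?_
    rw [hG]
    simp only
    rw [Complex.ofReal_sum, mul_sum]
    refine sum_congr rfl fun t _ => ?_
    rw [hWs]
  have hGn : ‖∑ x ∈ range N, e (h * (((A + x : ℕ) : ℝ) / q)) * (G ((A + x : ℕ) : ZMod p) : ℂ)‖ ≤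
      Real.sqrt N * Real.sqrt (T.card * H * p + 2 * T.card * H ^ 2 * Real.sqrt p) := by
    refine (norm_sum_le _ _).trans ?_
    have h1 : ∀ x ∈ range N, ‖e (h * (((A + x : ℕ) : ℝ) / q)) * (G ((A + x : ℕ) : ZMod p) : ℂ)‖ =
        |G ((A + x : ℕ) : ZMod p)| := by
      intro x _
      rw [norm_mul, norm_e, one_mul, Complex.norm_real, Real.norm_eq_abs]
    rw [sum_congr rfl h1]
    have h2 : ∑ x ∈ range N, |G ((A + x : ℕ) : ZMod p)| ^ 2 ≤
        T.card * H * p + 2 * T.card * H ^ 2 * Real.sqrt p := by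
      refine le_trans ?_ (second hp T hT (q : ZMod p) hQ H hH)
      have h3 : ∑ x ∈ range N, |G ((A + x : ℕ) : ZMod p)| ^ 2 =
          ∑ y ∈ (range N).image (fun x => ((A + x : ℕ) : ZMod p)), G y ^ 2 := by
        rw [sum_image]
        · exact sum_congr rfl fun x _ => sq_abs _
        · intro x hx y hy hxy
          rw [mem_coe, mem_range] at hx hy
          simp only [Nat.cast_add] at hxy
          have h4 : (x : ZMod p) = y := add_left_cancel hxy
          have h5 := (ZMod.natCast_eq_natCast_iff' x y p).1 h4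
          rwa [Nat.mod_eq_of_lt (by omega), Nat.mod_eq_of_lt (by omega)] at h5
      rw [h3]
      exact sum_le_sum_of_subset_of_nonneg (subset_univ _) fun _ _ _ => sq_nonneg _
    have h6 := sum_mul_sq_le_sq_mul_sq (range N) (fun _ => (1 : ℝ)) (fun x => |G ((A + x : ℕ) : ZMod p)|)
    simp only [one_mul, one_pow, sum_const, card_range, nsmul_eq_mul, mul_one] at h6
    rw [← Real.sqrt_mul (Nat.cast_nonneg _)]
    apply Real.le_sqrt_of_sq_le
    exact h6.trans (mul_le_mul_of_nonneg_left h2 (Nat.cast_nonneg _))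
  have hdiff : ‖(H : ℂ) * S - ∑ t ∈ range H, ∑ x ∈ range N, W (A + x + q * t)‖ ≤ 2 * q * H ^ 2 := by
    have h1 : (H : ℂ) * S - ∑ t ∈ range H, ∑ x ∈ range N, W (A + x + q * t) =
        ∑ t ∈ range H, (S - ∑ x ∈ range N, W (A + x + q * t)) := by
      rw [sum_sub_distrib, sum_const, card_range, nsmul_eq_mul]
    rw [h1]
    refine (norm_sum_le _ _).trans ((sum_le_sum hshift).trans (le_of_eq ?_))
    rw [sum_const, card_range, nsmul_eq_mul]
    ring
  have hfin : ‖(H : ℂ) * S‖ ≤ ‖(H : ℂ) * S - ∑ t ∈ range H, ∑ x ∈ range N, W (A + x + q * t)‖ +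
      ‖∑ t ∈ range H, ∑ x ∈ range N, W (A + x + q * t)‖ := by
    have := norm_add_le ((H : ℂ) * S - ∑ t ∈ range H, ∑ x ∈ range N, W (A + x + q * t))
      (∑ t ∈ range H, ∑ x ∈ range N, W (A + x + q * t))
    rwa [sub_add_cancel] at this
  rw [norm_mul, Complex.norm_natCast] at hfin
  rw [hsum] at hfin hdiff
  linarith

/-- the normalised indicator of a pattern -/
noncomputable def ind {k : ℕ} (a : Fin k → ZMod p) (η : Fin k → ℝ) (x : ZMod p) : ℝ :=
  ∏ j, ((1 + η j * quadraticChar (ZMod p) (x + a j)) / 2)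

lemma ind_expand {k : ℕ} (a : Fin k → ZMod p) (ha : Function.Injective a) (η : Fin k → ℝ) (x : ZMod p) :
    ind a η x = (1 / 2) ^ k * ∑ S ∈ (univ : Finset (Fin k)).powerset, (∏ j ∈ S, η j) * ch (S.image a) x := by
  classical
  unfold ind
  have h1 : ∏ j, ((1 + η j * quadraticChar (ZMod p) (x + a j)) / 2) =
      (1 / 2) ^ k * ∏ j, (1 + η j * quadraticChar (ZMod p) (x + a j)) := by
    rw [show ((1 / 2 : ℝ)) ^ k = ∏ _j : Fin k, (1 / 2 : ℝ) by simp, ← prod_mul_distrib]
    refine prod_congr rfl fun j _ => ?_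
    ring
  rw [h1, prod_one_add]
  congr 1
  refine sum_congr rfl fun S _ => ?_
  rw [prod_mul_distrib]
  congr 1
  unfold ch
  rw [prod_image (fun i _ j _ hij => ha hij)]
  push_cast
  rfl

lemma ind_good {k : ℕ} (a : Fin k → ZMod p) (η : Fin k → ℝ) (hη : ∀ j, η j = 1 ∨ η j = -1) (x : ZMod p)
    (hx : ∀ j, x + a j ≠ 0) :
    ind a η x = if ∀ j, ((quadraticChar (ZMod p) (x + a j) : ℤ) : ℝ) = η j then 1 else 0 := by
  classical
  unfold ind
  split_ifs with h
  · refine prod_eq_one fun j _ => ?_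
    rw [h j]
    rcases hη j with h1 | h1 <;> rw [h1] <;> norm_num
  · push Not at h
    obtain ⟨j, hj⟩ := h
    refine prod_eq_zero (mem_univ j) ?_
    have h4 : ((quadraticChar (ZMod p) (x + a j) : ℤ) : ℝ) = 1 ∨
        ((quadraticChar (ZMod p) (x + a j) : ℤ) : ℝ) = -1 := by
      rcases quadraticChar_dichotomy (hx j) with h2 | h2 <;> rw [h2] <;> simp
    rcases h4 with h2 | h2 <;> rcases hη j with h3 | h3
    · exact absurd (h2.trans h3.symm) hj
    · rw [h2, h3]; norm_num
    · rw [h2, h3]; norm_num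
    · exact absurd (h2.trans h3.symm) hj

lemma ind_mem {k : ℕ} (a : Fin k → ZMod p) (η : Fin k → ℝ) (hη : ∀ j, η j = 1 ∨ η j = -1) (x : ZMod p) :
    0 ≤ ind a η x ∧ ind a η x ≤ 1 := by
  unfold ind
  have h1 : ∀ j, 0 ≤ (1 + η j * quadraticChar (ZMod p) (x + a j)) / 2 ∧
      (1 + η j * quadraticChar (ZMod p) (x + a j)) / 2 ≤ 1 := by
    intro j
    by_cases h0 : x + a j = 0
    · rw [h0]
      simp
      norm_num
    · rcases quadraticChar_dichotomy h0 with h2 | h2 <;> rcases hη j with h3 | h3 <;>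
        rw [h2, h3] <;> norm_num
  exact ⟨prod_nonneg fun j _ => (h1 j).1, prod_le_one (fun j _ => (h1 j).1) fun j _ => (h1 j).2⟩

end Pool.Agent.Q318.RG
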