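import Pool.Agent.Q318.RG.LegB
import Pool.Agent.Q318.RG.Box

set_option autoImplicit false

/-! # Patterns of Legendre symbols: sums over the members of an interval with a given pattern -/

namespace Pool.Agent.Q318.RG

open Finset Filter
open Pool.Agent.H469R2.NK (e norm_e e_add)
open Pool.Agent.TH915.PW (e_int)
open Pool.Agent.W147.PS (ff ff_compare ev_pow)
open Pool.Agent.Q46.MH (Iso crit_many)

variable {p : ℕ} [Fact p.Prime]

/-- the members of the interval with the pattern -/
noncomputable def pat {k : ℕ} (a : Fin k → ZMod p) (η : Fin k → ℝ) (A N : ℕ) : Finset ℕ := by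
  classical
  exact (range N).filter (fun x => ∀ j, ((quadraticChar (ZMod p) (((A + x : ℕ) : ZMod p) + a j) : ℤ) : ℝ) = η j)

lemma weighted {k : ℕ} (a : Fin k → ZMod p) (ha : Function.Injective a) (η : Fin k → ℝ)
    (hη : ∀ j, η j = 1 ∨ η j = -1) (A N : ℕ) (hN : N ≤ p) (w : ℕ → ℂ) (hw : ∀ x, ‖w x‖ ≤ 1) (B : ℝ)
    (hB0 : 0 ≤ B) (hB : ∀ S : Finset (Fin k), S.Nonempty →
      ‖∑ x ∈ range N, w x * (ch (S.image a) ((A + x : ℕ) : ZMod p) : ℂ)‖ ≤ B) :
    ‖∑ x ∈ pat a η A N, w x - (1 / 2) ^ k * ∑ x ∈ range N, w x‖ ≤ B + k := by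
  classical
  set g : ℕ → ℝ := fun x => ind a η ((A + x : ℕ) : ZMod p) with hg
  have h1 : ∑ x ∈ range N, w x * (g x : ℂ) = (1 / 2) ^ k * ∑ S ∈ (univ : Finset (Fin k)).powerset,
      ((∏ j ∈ S, η j : ℝ) : ℂ) * ∑ x ∈ range N, w x * (ch (S.image a) ((A + x : ℕ) : ZMod p) : ℂ) := by
    have e1 : ∀ x ∈ range N, w x * (g x : ℂ) = (1 / 2) ^ k * ∑ S ∈ (univ : Finset (Fin k)).powerset,
        ((∏ j ∈ S, η j : ℝ) : ℂ) * (w x * (ch (S.image a) ((A + x : ℕ) : ZMod p) : ℂ)) := by
      intro x _
      rw [hg]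
      simp only
      rw [ind_expand a ha]
      push_cast
      rw [mul_left_comm, mul_sum]
      congr 1
      refine sum_congr rfl fun S _ => ?_
      ring
    rw [sum_congr rfl e1, ← mul_sum, sum_comm]
    congr 1
    refine sum_congr rfl fun S _ => ?_
    rw [mul_sum]
  have habs : ∀ S : Finset (Fin k), ‖((∏ j ∈ S, η j : ℝ) : ℂ)‖ = 1 := by
    intro S
    rw [Complex.norm_real, norm_prod]
    refine prod_eq_one fun j _ => ?_
    rcases hη j with h | h <;> rw [h] <;> simp
  have h2 : ‖∑ x ∈ range N, w x * (g x : ℂ) - (1 / 2) ^ k * ∑ x ∈ range N, w x‖ ≤ B := by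
    rw [h1, ← add_sum_erase _ _ (show (∅ : Finset (Fin k)) ∈ (univ : Finset (Fin k)).powerset by simp)]
    have e0 : ((∏ j ∈ (∅ : Finset (Fin k)), η j : ℝ) : ℂ) *
        ∑ x ∈ range N, w x * (ch ((∅ : Finset (Fin k)).image a) ((A + x : ℕ) : ZMod p) : ℂ) =
        ∑ x ∈ range N, w x := by
      simp [ch]
    rw [e0, mul_add, add_sub_cancel_left, norm_mul, norm_pow]
    have e2 : ‖∑ S ∈ (univ : Finset (Fin k)).powerset.erase ∅, ((∏ j ∈ S, η j : ℝ) : ℂ) *
        ∑ x ∈ range N, w x * (ch (S.image a) ((A + x : ℕ) : ZMod p) : ℂ)‖ ≤ 2 ^ k * B := by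
      refine (norm_sum_le _ _).trans ?_
      calc _ ≤ ∑ S ∈ (univ : Finset (Fin k)).powerset.erase ∅, B := by
            refine sum_le_sum fun S hS => ?_
            rw [norm_mul, habs, one_mul]
            exact hB S (nonempty_iff_ne_empty.2 (mem_erase.1 hS).1)
        _ ≤ 2 ^ k * B := by
            rw [sum_const, nsmul_eq_mul]
            refine mul_le_mul_of_nonneg_right ?_ hB0
            have : ((univ : Finset (Fin k)).powerset.erase ∅).card ≤ 2 ^ k := by
              refine card_erase_le.trans ?_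
              rw [card_powerset, card_univ, Fintype.card_fin]
            exact_mod_cast this
    have e3 : ‖(1 / 2 : ℂ)‖ = 1 / 2 := by norm_num
    rw [e3]
    calc (1 / 2 : ℝ) ^ k * _ ≤ (1 / 2) ^ k * (2 ^ k * B) := mul_le_mul_of_nonneg_left e2 (by positivity)
      _ = B := by
          rw [← mul_assoc, ← mul_pow]
          norm_num
  -- the difference between the indicator and its approximation
  set bad := (range N).filter (fun x => ∃ j, ((A + x : ℕ) : ZMod p) + a j = 0) with hbad
  have hbadc : bad.card ≤ k := by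
    have hsub : bad ⊆ (univ : Finset (Fin k)).biUnion
        (fun j => (range N).filter (fun x => ((A + x : ℕ) : ZMod p) + a j = 0)) := by
      intro x hx
      rw [hbad, mem_filter] at hx
      obtain ⟨hx1, j, hj⟩ := hx
      rw [mem_biUnion]
      exact ⟨j, mem_univ j, mem_filter.2 ⟨hx1, hj⟩⟩
    refine (card_le_card hsub).trans (card_biUnion_le.trans ?_)
    calc _ ≤ ∑ _j : Fin k, 1 := by
          refine sum_le_sum fun j _ => ?_
          rw [card_le_one]
          intro x hx y hy
          rw [mem_filter, mem_range] at hx hy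
          have h3 : ((A + x : ℕ) : ZMod p) = ((A + y : ℕ) : ZMod p) :=
            add_right_cancel (hx.2.trans hy.2.symm)
          simp only [Nat.cast_add] at h3
          have h4 : (x : ZMod p) = y := add_left_cancel h3
          have h5 := (ZMod.natCast_eq_natCast_iff' x y p).1 h4
          rwa [Nat.mod_eq_of_lt (by omega), Nat.mod_eq_of_lt (by omega)] at h5
      _ = k := by simp
  have h3 : ‖∑ x ∈ pat a η A N, w x - ∑ x ∈ range N, w x * (g x : ℂ)‖ ≤ k := by
    unfold pat
    rw [sum_filter, ← sum_sub_distrib]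
    have e4 : ∀ x ∈ range N, ‖(if ∀ j, ((quadraticChar (ZMod p) (((A + x : ℕ) : ZMod p) + a j) : ℤ) : ℝ) = η j
        then w x else 0) - w x * (g x : ℂ)‖ ≤ if x ∈ bad then 1 else 0 := by
      intro x hx
      by_cases hb : x ∈ bad
      · rw [if_pos hb]
        obtain ⟨g0, g1⟩ := ind_mem a η hη ((A + x : ℕ) : ZMod p)
        split_ifs with hc
        · have : w x - w x * (g x : ℂ) = w x * (((1 - g x : ℝ)) : ℂ) := by push_cast; ring
          rw [this, norm_mul, Complex.norm_real, Real.norm_eq_abs]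
          refine mul_le_one₀ (hw x) (abs_nonneg _) ?_
          rw [abs_of_nonneg (by simp only [hg]; linarith)]
          simp only [hg]
          linarith
        · rw [zero_sub, norm_neg, norm_mul, Complex.norm_real, Real.norm_eq_abs]
          refine mul_le_one₀ (hw x) (abs_nonneg _) ?_
          rw [abs_of_nonneg (by simp only [hg]; exact g0)]
          exact g1
      · rw [if_neg hb]
        have hgood : ∀ j, ((A + x : ℕ) : ZMod p) + a j ≠ 0 := by
          intro j hj
          exact hb (by rw [hbad, mem_filter]; exact ⟨hx, j, hj⟩)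
        have := ind_good a η hη ((A + x : ℕ) : ZMod p) hgood
        simp only [hg]
        rw [this]
        split_ifs <;> simp
    refine (norm_sum_le _ _).trans ((sum_le_sum e4).trans ?_)
    rw [← sum_filter, sum_const, nsmul_eq_mul, mul_one]
    have : ((range N).filter (· ∈ bad)).card ≤ k := by
      refine le_trans (card_le_card ?_) hbadc
      intro x hx
      exact (mem_filter.1 hx).2
    exact_mod_cast this
  calc ‖∑ x ∈ pat a η A N, w x - (1 / 2) ^ k * ∑ x ∈ range N, w x‖
      = ‖(∑ x ∈ range N, w x * (g x : ℂ) - (1 / 2) ^ k * ∑ x ∈ range N, w x) +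
          (∑ x ∈ pat a η A N, w x - ∑ x ∈ range N, w x * (g x : ℂ))‖ := by
        congr 1
        ring
    _ ≤ B + k := (norm_add_le _ _).trans (add_le_add h2 h3)

end Pool.Agent.Q318.RG
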