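import Pool.Agent.Q318.RG.LegC

set_option autoImplicit false

/-! # Patterns of Legendre symbols at integers in the middle of record gaps -/

namespace Pool.Agent.Q318.RG

open Finset Filter
open Pool.Agent.H469R2.NK (e norm_e e_add)
open Pool.Agent.TH915.PW (e_int)
open Pool.Agent.W147.PS (ff ff_compare ev_pow)
open Pool.Agent.Q46.MH (Iso crit_many)

/-- the numerical inequality -/
lemma num_ineq (η M N K q : ℝ) (H : ℕ) (hM1 : 1 ≤ M) (hN : 0 ≤ N)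
    (hN2 : 2 * M ^ (1 + 17 * η) ≤ N ^ 2) (hN3 : 4 * M ^ (1 / 2 + 11 * η) ≤ N)
    (hK : K ≤ M ^ η) (hq : q ≤ M ^ η) (h5 : 5 ≤ M ^ η)
    (hH1 : N * M ^ (-(6 * η)) ≤ H) (hH2 : (H : ℝ) ≤ 2 * (N * M ^ (-(6 * η)))) :
    Real.sqrt N * Real.sqrt (K * H * M + 2 * K * H ^ 2 * Real.sqrt M) + 2 * q * H ^ 2 ≤
      H * (N * M ^ (-(4 * η))) := by
  have hM0 : 0 < M := by linarith
  have hadd : ∀ x y : ℝ, M ^ x * M ^ y = M ^ (x + y) := fun x y => (Real.rpow_add hM0 x y).symm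
  have hpos : ∀ x : ℝ, 0 < M ^ x := fun x => Real.rpow_pos_of_pos hM0 x
  have hH0 : (0 : ℝ) ≤ H := Nat.cast_nonneg _
  have hsM : Real.sqrt M = M ^ (1 / 2 : ℝ) := Real.sqrt_eq_rpow M
  -- first part
  have a1 : N * (K * H * M) ≤ 1 / 2 * (H * (N * M ^ (-(5 * η)))) ^ 2 := by
    have b1 : K * M ≤ M ^ (1 + η) := by
      calc K * M ≤ M ^ η * M := mul_le_mul_of_nonneg_right hK hM0.le
        _ = M ^ (1 + η) := by rw [add_comm, Real.rpow_add hM0, Real.rpow_one]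
    have b2 : M ^ (1 + η) ≤ 1 / 2 * (N * H * M ^ (-(10 * η))) := by
      have c1 : N * H * M ^ (-(10 * η)) ≥ N * (N * M ^ (-(6 * η))) * M ^ (-(10 * η)) := by
        gcongr
      have c2 : N * (N * M ^ (-(6 * η))) * M ^ (-(10 * η)) = N ^ 2 * M ^ (-(16 * η)) := by
        rw [show -(16 * η) = -(6 * η) + -(10 * η) by ring, ← hadd]
        ring
      have c3 : 2 * M ^ (1 + 17 * η) * M ^ (-(16 * η)) ≤ N ^ 2 * M ^ (-(16 * η)) :=
        mul_le_mul_of_nonneg_right hN2 (hpos _).le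
      have c4 : 2 * M ^ (1 + 17 * η) * M ^ (-(16 * η)) = 2 * M ^ (1 + η) := by
        rw [mul_assoc, hadd]
        congr 2
        ring
      linarith
    have b3 : (H * (N * M ^ (-(5 * η)))) ^ 2 = N * H * (N * H * M ^ (-(10 * η))) := by
      rw [show -(10 * η) = -(5 * η) + -(5 * η) by ring, ← hadd]
      ring
    rw [b3]
    have b4 : 0 ≤ N * H := mul_nonneg hN hH0
    calc N * (K * H * M) = N * H * (K * M) := by ring
      _ ≤ N * H * (1 / 2 * (N * H * M ^ (-(10 * η)))) := mul_le_mul_of_nonneg_left (b1.trans b2) b4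
      _ = _ := by ring
  have a2 : N * (2 * K * H ^ 2 * Real.sqrt M) ≤ 1 / 2 * (H * (N * M ^ (-(5 * η)))) ^ 2 := by
    have b1 : 2 * K * Real.sqrt M ≤ 2 * M ^ (1 / 2 + η) := by
      rw [hsM]
      calc 2 * K * M ^ (1 / 2 : ℝ) ≤ 2 * M ^ η * M ^ (1 / 2 : ℝ) :=
            mul_le_mul_of_nonneg_right (by linarith) (hpos _).le
        _ = 2 * M ^ (1 / 2 + η) := by rw [mul_assoc, hadd, add_comm η]
    have b2 : 2 * M ^ (1 / 2 + η) ≤ 1 / 2 * (N * M ^ (-(10 * η))) := by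
      have c3 : 4 * M ^ (1 / 2 + 11 * η) * M ^ (-(10 * η)) ≤ N * M ^ (-(10 * η)) :=
        mul_le_mul_of_nonneg_right hN3 (hpos _).le
      have c4 : 4 * M ^ (1 / 2 + 11 * η) * M ^ (-(10 * η)) = 4 * M ^ (1 / 2 + η) := by
        rw [mul_assoc, hadd]
        congr 2
        ring
      linarith
    have b3 : (H * (N * M ^ (-(5 * η)))) ^ 2 = N * H ^ 2 * (N * M ^ (-(10 * η))) := by
      rw [show -(10 * η) = -(5 * η) + -(5 * η) by ring, ← hadd]
      ring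
    rw [b3]
    have b4 : 0 ≤ N * (H : ℝ) ^ 2 := mul_nonneg hN (sq_nonneg _)
    calc N * (2 * K * H ^ 2 * Real.sqrt M) = N * H ^ 2 * (2 * K * Real.sqrt M) := by ring
      _ ≤ N * H ^ 2 * (1 / 2 * (N * M ^ (-(10 * η)))) := mul_le_mul_of_nonneg_left (b1.trans b2) b4
      _ = _ := by ring
  have a3 : Real.sqrt N * Real.sqrt (K * H * M + 2 * K * H ^ 2 * Real.sqrt M) ≤
      H * (N * M ^ (-(5 * η))) := by
    rw [← Real.sqrt_mul hN]
    apply Real.sqrt_le_iff.2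
    refine ⟨mul_nonneg hH0 (mul_nonneg hN (hpos _).le), ?_⟩
    rw [mul_add]
    linarith
  have a4 : 2 * q * H ^ 2 ≤ 4 * (H * (N * M ^ (-(5 * η)))) := by
    have b1 : q * H ≤ M ^ η * (2 * (N * M ^ (-(6 * η)))) := mul_le_mul hq hH2 hH0 (hpos _).le
    have b2 : M ^ η * (2 * (N * M ^ (-(6 * η)))) = 2 * (N * M ^ (-(5 * η))) := by
      rw [show -(5 * η) = η + -(6 * η) by ring, ← hadd]
      ring
    rw [b2] at b1
    have := mul_le_mul_of_nonneg_left b1 (show (0 : ℝ) ≤ 2 * H by positivity)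
    linarith
  have a5 : 5 * M ^ (-(5 * η)) ≤ M ^ (-(4 * η)) := by
    calc 5 * M ^ (-(5 * η)) ≤ M ^ η * M ^ (-(5 * η)) := mul_le_mul_of_nonneg_right h5 (hpos _).le
      _ = M ^ (-(4 * η)) := by rw [hadd]; congr 1; ring
  have a6 : H * N * (5 * M ^ (-(5 * η))) ≤ H * N * M ^ (-(4 * η)) :=
    mul_le_mul_of_nonneg_left a5 (mul_nonneg hH0 hN)
  linarith

/-- the main estimate, intervals to the right of `M^η` -/
lemma main_pat (ε : ℝ) (h0 : 0 < ε) (h1 : ε ≤ 1) : ∃ κ : ℝ, 0 < κ ∧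
    ∀ᶠ M : ℝ in atTop, ∀ (p : ℕ) [Fact p.Prime], (p : ℝ) = M → ∀ (k : ℕ), (2 : ℝ) ^ k ≤ M ^ (ε / 32) →
      ∀ (a : Fin k → ZMod p), Function.Injective a → ∀ η : Fin k → ℝ, (∀ j, η j = 1 ∨ η j = -1) →
      ∀ A N : ℕ, N ≤ p → M ^ (1 / 2 + ε) ≤ N → M ^ (ε / 32) ≤ A →
      N * M ^ (-ε) ≤ (({x : ℕ | x ∈ pat a η A N ∧ Iso (κ * ff M) (fun _ : Fin 1 => ((A + x : ℕ) : ℤ))}).ncard : ℝ) := by
  classical
  set θ : ℝ := ε / 32 with hθ
  have hθ0 : 0 < θ := by positivity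
  have hε : ε = 32 * θ := by rw [hθ]; ring
  obtain ⟨κ, hκ, hev⟩ := crit_many 1 le_rfl θ hθ0 (by rw [hθ]; linarith)
  refine ⟨κ, hκ, ?_⟩
  filter_upwards [hev, eventually_ge_atTop (3 : ℝ), (tendsto_rpow_atTop hθ0).eventually_ge_atTop 5,
    ev_pow (1 + 17 * θ) (1 + 2 * ε) 2 (by linarith), ev_pow (1 / 2 + 11 * θ) (1 / 2 + ε) 4 (by linarith),
    ev_pow θ 1 2 (by linarith), ev_pow (6 * θ) (1 / 2 + ε) 1 (by linarith)] with
    M hM hM3 h5 hp1 hp2 hp3 hp4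
  intro p _ hpM k hk a ha η hη A N hN hNM hA
  have hM0 : 0 < M := lt_of_lt_of_le (by norm_num) hM3
  have hM1 : 1 ≤ M := le_trans (by norm_num) hM3
  have hadd : ∀ x y : ℝ, M ^ x * M ^ y = M ^ (x + y) := fun x y => (Real.rpow_add hM0 x y).symm
  have hpos : ∀ x : ℝ, 0 < M ^ x := fun x => Real.rpow_pos_of_pos hM0 x
  have hmono : ∀ x y : ℝ, x ≤ y → M ^ x ≤ M ^ y := fun x y h => Real.rpow_le_rpow_of_exponent_le hM1 h
  rw [Real.rpow_one] at hp3
  rw [one_mul] at hp4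
  have hN0 : (0 : ℝ) ≤ N := Nat.cast_nonneg _
  have hNM' : (N : ℝ) ≤ M := by rw [← hpM]; exact_mod_cast hN
  have hpne : p ≠ 2 := by
    rintro rfl
    rw [← hpM] at hM3
    norm_num at hM3
  have hN1 : M ^ (6 * θ) ≤ N := hp4.trans hNM
  have hN2 : 2 * M ^ (1 + 17 * θ) ≤ (N : ℝ) ^ 2 := by
    refine hp1.trans ?_
    have : M ^ (1 + 2 * ε) = (M ^ (1 / 2 + ε)) ^ 2 := by
      rw [sq, hadd]
      congr 1
      ring
    rw [this]
    exact pow_le_pow_left₀ (hpos _).le hNM 2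
  have hN3 : 4 * M ^ (1 / 2 + 11 * θ) ≤ N := hp2.trans hNM
  have hkM : (k : ℝ) ≤ M ^ θ := by
    refine le_trans ?_ hk
    exact_mod_cast (Nat.lt_two_pow_self (n := k)).le
  set H : ℕ := ⌈(N : ℝ) * M ^ (-(6 * θ))⌉₊ with hH
  have hHa : (N : ℝ) * M ^ (-(6 * θ)) ≤ H := Nat.le_ceil _
  have hone : 1 ≤ (N : ℝ) * M ^ (-(6 * θ)) := by
    calc (1 : ℝ) = M ^ (6 * θ) * M ^ (-(6 * θ)) := by rw [hadd]; simp
      _ ≤ _ := mul_le_mul_of_nonneg_right hN1 (hpos _).le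
  have hHb : (H : ℝ) ≤ 2 * ((N : ℝ) * M ^ (-(6 * θ))) := by
    have := Nat.ceil_lt_add_one (show 0 ≤ (N : ℝ) * M ^ (-(6 * θ)) by linarith)
    rw [← hH] at this
    linarith
  have hHpos : (0 : ℝ) < H := by linarith
  have hHp : H ≤ p := by
    have h6 : (H : ℝ) ≤ p := by
      rw [hpM]
      refine hHb.trans ?_
      have h7 : 2 * M ^ (-(6 * θ)) ≤ 1 := by
        have h8 : M ^ (-(6 * θ)) ≤ M ^ (-θ) := hmono _ _ (by linarith)
        have h9 : M ^ θ * M ^ (-θ) = 1 := by rw [hadd]; simp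
        have h10 : 5 * M ^ (-θ) ≤ M ^ θ * M ^ (-θ) := mul_le_mul_of_nonneg_right h5 (hpos _).le
        linarith [hpos (-θ)]
      calc 2 * ((N : ℝ) * M ^ (-(6 * θ))) = N * (2 * M ^ (-(6 * θ))) := by ring
        _ ≤ N * 1 := mul_le_mul_of_nonneg_left h7 hN0
        _ ≤ M := by linarith
    exact_mod_cast h6
  -- the bound for the twisted sums
  have hB : ∀ (q : ℕ), 1 ≤ q → (q : ℝ) ≤ M ^ θ → ∀ h : ℕ, ∀ S : Finset (Fin k), S.Nonempty →
      ‖∑ x ∈ range N, e (h * (((A + x : ℕ) : ℝ) / q)) * (ch (S.image a) ((A + x : ℕ) : ZMod p) : ℂ)‖ ≤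
        N * M ^ (-(4 * θ)) := by
    intro q hq hqM h S hS
    have hqp : q < p := by
      have : (q : ℝ) < p := by
        rw [hpM]
        have := hpos θ
        linarith
      exact_mod_cast this
    have hcard : ((S.image a).card : ℝ) ≤ M ^ θ := by
      refine le_trans ?_ hkM
      have : (S.image a).card ≤ k := by
        refine card_image_le.trans ?_
        have := card_le_univ S
        rwa [Fintype.card_fin] at this
      exact_mod_cast this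
    have h6 := interval hpne (S.image a) (hS.image a) A N hN q hq hqp h H hHp
    rw [hpM] at h6
    have h7 := num_ineq θ M N (S.image a).card q H hM1 hN0 hN2 hN3 hcard
      hqM h5 hHa hHb
    exact le_of_mul_le_mul_left (h6.trans h7) hHpos
  have hB0 : 0 ≤ (N : ℝ) * M ^ (-(4 * θ)) := mul_nonneg hN0 (hpos _).le
  have hhalf : M ^ (-θ) ≤ (1 / 2 : ℝ) ^ k := by
    rw [Real.rpow_neg hM0.le, one_div, inv_pow]
    exact inv_anti₀ (by positivity) hk
  have hhalf1 : (1 / 2 : ℝ) ^ k ≤ 1 := pow_le_one₀ (by norm_num) (by norm_num)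
  have hnh : ‖(1 / 2 : ℂ) ^ k‖ = (1 / 2 : ℝ) ^ k := by
    rw [norm_pow]
    norm_num
  -- the number of members
  have f3 : 5 * M ^ (-(4 * θ)) ≤ M ^ (-(3 * θ)) := by
    calc 5 * M ^ (-(4 * θ)) ≤ M ^ θ * M ^ (-(4 * θ)) := mul_le_mul_of_nonneg_right h5 (hpos _).le
      _ = M ^ (-(3 * θ)) := by rw [hadd]; congr 1; ring
  have f2 : 5 * M ^ (-(3 * θ)) ≤ M ^ (-(2 * θ)) := by
    calc 5 * M ^ (-(3 * θ)) ≤ M ^ θ * M ^ (-(3 * θ)) := mul_le_mul_of_nonneg_right h5 (hpos _).le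
      _ = M ^ (-(2 * θ)) := by rw [hadd]; congr 1; ring
  have f1 : 5 * M ^ (-(2 * θ)) ≤ M ^ (-θ) := by
    calc 5 * M ^ (-(2 * θ)) ≤ M ^ θ * M ^ (-(2 * θ)) := mul_le_mul_of_nonneg_right h5 (hpos _).le
      _ = M ^ (-θ) := by rw [hadd]; congr 1; ring
  have f4 : M ^ θ ≤ N * M ^ (-(4 * θ)) := by
    calc M ^ θ = M ^ (5 * θ) * M ^ (-(4 * θ)) := by rw [hadd]; congr 1; ring
      _ ≤ M ^ (6 * θ) * M ^ (-(4 * θ)) := mul_le_mul_of_nonneg_right (hmono _ _ (by linarith)) (hpos _).le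
      _ ≤ _ := mul_le_mul_of_nonneg_right hN1 (hpos _).le
  have hs : N * M ^ (-(2 * θ)) ≤ ((pat a η A N).card : ℝ) := by
    have h6 := weighted a ha η hη A N hN (fun _ => 1) (by simp) (N * M ^ (-(4 * θ))) hB0 (by
      intro S hS
      have h7 := hB 1 le_rfl (by push_cast; linarith) 0 S hS
      simpa [Pool.Agent.Q46.MH.e_zero'] using h7)
    rw [sum_const, sum_const, card_range, nsmul_eq_mul, nsmul_eq_mul, mul_one, mul_one] at h6
    have h7 : ‖((pat a η A N).card : ℂ) - (1 / 2) ^ k * (N : ℂ)‖ =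
        |((pat a η A N).card : ℝ) - (1 / 2) ^ k * (N : ℝ)| := by
      rw [← Real.norm_eq_abs, ← Complex.norm_real]
      congr 1
      push_cast
      rfl
    rw [h7] at h6
    have h8 := (abs_le.1 h6).1
    have h9 : M ^ (-θ) * N ≤ (1 / 2) ^ k * N := mul_le_mul_of_nonneg_right hhalf hN0
    have g1 : N * (5 * M ^ (-(2 * θ))) ≤ N * M ^ (-θ) := mul_le_mul_of_nonneg_left f1 hN0
    have g2 : N * (5 * M ^ (-(3 * θ))) ≤ N * M ^ (-(2 * θ)) := mul_le_mul_of_nonneg_left f2 hN0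
    have g3 : N * (5 * M ^ (-(4 * θ))) ≤ N * M ^ (-(3 * θ)) := mul_le_mul_of_nonneg_left f3 hN0
    have g4 : 0 ≤ N * M ^ (-(3 * θ)) := mul_nonneg hN0 (hpos _).le
    linarith
  -- the criterion
  have hcrit := hM ℕ (pat a η A N) (fun x _ => ((A + x : ℕ) : ℤ)) (by
    intro x _ _
    push_cast
    have : (0 : ℝ) ≤ (x : ℝ) := Nat.cast_nonneg _
    linarith) (by
    intro q hq hqM h hh hne
    have hh0 : 0 < h 0 := by
      rcases Nat.eq_zero_or_pos (h 0) with h6 | h6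
      · exfalso
        apply hne
        funext j
        fin_cases j
        exact h6
      · exact h6
    have e1 : ∀ x : ℕ, ∑ j : Fin 1, (h j : ℝ) * ((((A + x : ℕ) : ℤ) : ℝ) / q) =
        h 0 * (((A + x : ℕ) : ℝ) / q) := by
      intro x
      rw [Fin.sum_univ_one]
      push_cast
      rfl
    simp only [e1]
    have h6 := weighted a ha η hη A N hN (fun x => e (h 0 * (((A + x : ℕ) : ℝ) / q)))
      (fun x => (norm_e _).le) (N * M ^ (-(4 * θ))) hB0 (fun S hS => hB q hq hqM (h 0) S hS)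
    have h7 : ‖∑ x ∈ range N, e (h 0 * (((A + x : ℕ) : ℝ) / q))‖ ≤ q := by
      have e2 : ∀ x ∈ range N, e (h 0 * (((A + x : ℕ) : ℝ) / q)) =
          e (h 0 * ((A : ℝ) / q)) * e (((h 0 : ℤ) : ℝ) * ((x : ℝ) / q)) := by
        intro x _
        rw [← e_add]
        congr 1
        push_cast
        ring
      rw [sum_congr rfl e2, ← mul_sum, norm_mul, norm_e, one_mul]
      refine geo q hq _ ?_ N
      intro hd
      have h8 : q ∣ h 0 := by exact_mod_cast hd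
      exact absurd (Nat.le_of_dvd hh0 h8) (not_le.2 (hh 0))
    have h8 : ‖∑ x ∈ pat a η A N, e (h 0 * (((A + x : ℕ) : ℝ) / q))‖ ≤
        (N * M ^ (-(4 * θ)) + k) + q := by
      have h9 := norm_add_le (∑ x ∈ pat a η A N, e (h 0 * (((A + x : ℕ) : ℝ) / q)) -
        (1 / 2) ^ k * ∑ x ∈ range N, e (h 0 * (((A + x : ℕ) : ℝ) / q)))
        ((1 / 2) ^ k * ∑ x ∈ range N, e (h 0 * (((A + x : ℕ) : ℝ) / q)))
      rw [sub_add_cancel] at h9
      refine h9.trans (add_le_add h6 ?_)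
      rw [norm_mul, hnh]
      calc (1 / 2 : ℝ) ^ k * _ ≤ 1 * q := mul_le_mul hhalf1 h7 (norm_nonneg _) zero_le_one
        _ = q := one_mul _
    refine h8.trans ?_
    have g3 : N * (5 * M ^ (-(4 * θ))) ≤ N * M ^ (-(3 * θ)) := mul_le_mul_of_nonneg_left f3 hN0
    have g5 : N * M ^ (-(2 * θ)) * M ^ (-θ) ≤ (pat a η A N).card * M ^ (-θ) :=
      mul_le_mul_of_nonneg_right hs (hpos _).le
    have g6 : N * M ^ (-(2 * θ)) * M ^ (-θ) = N * M ^ (-(3 * θ)) := by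
      rw [mul_assoc, hadd]
      congr 2
      ring
    linarith)
  have g5 : N * M ^ (-(2 * θ)) * M ^ (-θ) ≤ (pat a η A N).card * M ^ (-θ) :=
    mul_le_mul_of_nonneg_right hs (hpos _).le
  have g6 : N * M ^ (-(2 * θ)) * M ^ (-θ) = N * M ^ (-(3 * θ)) := by
    rw [mul_assoc, hadd]
    congr 2
    ring
  have g7 : N * M ^ (-ε) ≤ N * M ^ (-(3 * θ)) :=
    mul_le_mul_of_nonneg_left (hmono _ _ (by linarith)) hN0
  refine (g7.trans (g6.symm.le.trans (g5.trans hcrit))).trans (le_of_eq ?_)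
  rw [← Set.ncard_coe_finset]
  congr 2
  ext x
  simp only [Finset.coe_filter, Set.mem_ofPred_eq]

end Pool.Agent.Q318.RG
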